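import Pool.Agent.V1178.MT.Defs
import Pool.Agent.Y116.MT.Deg

/-!
# Pure generators: definitions
-/

set_option autoImplicit false

open CategoryTheory Limits MonoidalCategory Pretriangulated Triangulated

namespace Pool.Agent.Helper812_MT

open Pool.Agent.Y116.MT

universe v u w

section

variable {C : Type u} [Category.{v} C] [Preadditive C] [HasZeroObject C] [HasShift C ℤ]
  [∀ n : ℤ, (shiftFunctor C n).Additive] [Pretriangulated C] [MonoidalCategory C]
  [SymmetricCategory C] [TensorTriangulated C]

/-- The rank of the realisation of a morphism `f` in degree `n`, that is, of `H^n(f)`. -/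
noncomputable def rank {E : Type w} [Field E] (R : Realisation C E) {X Y : C} (f : X ⟶ Y)
    (n : ℤ) : ℕ := Module.finrank E (LinearMap.range (R.H.map (f⟦n⟧')).hom)

/-- The Betti number: the dimension of the cohomology `H^n(X)` of degree `n`. -/
noncomputable def betti {E : Type w} [Field E] (R : Realisation C E) (X : C) (n : ℤ) : ℕ :=
  Module.finrank E (R.H.obj (X⟦n⟧))

/-- The hard Lefschetz theorem for `Q`, for the Lefschetz object `T`: there are an integer `e` and
morphisms `L : Q ⟶ Q ⊗ T ^ k` which induce isomorphisms `H^(e-k)(Q) ≅ H^(e-k)(Q ⊗ T ^ k)`. -/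
def Lefschetz {E : Type w} [Field E] (R : Realisation C E) (T Q : C) : Prop :=
  ∃ e : ℤ, ∀ k : ℕ, ∃ L : Q ⟶ twist T Q k, IsIso (R.H.map (L⟦e - k⟧'))

/-- The class `P` of objects consists of pure generators of `C`, with the Lefschetz object `T`
and the distinguished realisation `R l₀`. In a category of motives, `P` is the class of the
twisted motives `M(X)(m)` of the smooth projective varieties `X` of pure dimension, `T` is the
object `𝟙(1)[2]`, and the conditions are the following known facts: these motives generate the
category as a thick triangulated subcategory; `T` is invertible and has its cohomology in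
degree `-2`; the `l`-adic Betti numbers of `X` do not depend on `l`; and the hard Lefschetz theorem
holds for the `l₀`-adic cohomology of `X`. -/
structure PureGenerators (P : ObjectProperty C) (T : C) {Λ : Type*} {E : Λ → Type w}
    [∀ l, Field (E l)] (R : ∀ l, Realisation C (E l)) (l₀ : Λ) : Prop where
  generates : P.IsClassicalTriangulatedGenerator
  invertible : ∃ T' : C, Nonempty (T ⊗ T' ≅ 𝟙_ C)
  degree (l : Λ) : (R l).Deg T (-2)
  betti_eq (Q : C) : P Q → ∀ (l : Λ) (n : ℤ), betti (R l) Q n = betti (R l₀) Q n
  lefschetz (Q : C) : P Q → Lefschetz (R l₀) T Q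

end

end Pool.Agent.Helper812_MT
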