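import Pool.Agent.Helper812_MT.Thick

/-!
# One prime is enough
-/

set_option autoImplicit false
set_option linter.unusedSectionVars false
set_option linter.unusedSimpArgs false
set_option backward.isDefEq.respectTransparency false
set_option backward.defeqAttrib.useBackward true

open CategoryTheory Limits MonoidalCategory TensorProduct Pretriangulated Triangulated

namespace Pool.Agent.Helper812_MT

open Pool.Agent.Y116.MT Pool.Agent.V1178.MT

universe v u w

section

variable {C : Type u} [Category.{v} C] [Preadditive C] [HasZeroObject C] [HasShift C ℤ]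
  [∀ n : ℤ, (shiftFunctor C n).Additive] [Pretriangulated C] [MonoidalCategory C]
  [SymmetricCategory C] [TensorTriangulated C] [IsTriangulated C] [MonoidalPreadditive C]
  [RightRigidCategory C]
  {E : Type w} [Field E] {R : Realisation C E} {t : TStructure C}
  {E' : Type w} [Field E'] {R' : Realisation C E'}

/-- A conservative t-exact realisation makes the t-structure compatible with tensor products. -/
lemma tensorCompat_of (hc : Conservative R) (he : TExact t R) : TensorCompat t :=
  ⟨fun _ _ hX hY => (isLE_of hc he fun _ hi => tensor_vanish_pos (he.le _ hX) (he.le _ hY) hi).le,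
    fun _ _ hX hY => (isGE_of hc he fun _ hi => tensor_vanish_neg (he.ge _ hX) (he.ge _ hY) hi).ge⟩

lemma unit_hrt_of (hc : Conservative R) (he : TExact t R) : Hrt t (𝟙_ C) :=
  ⟨isLE_of hc he fun i hi => deg_unit i (by omega), isGE_of hc he fun i hi => deg_unit i (by omega)⟩

lemma bounded_of (hc : Conservative R) (he : TExact t R) (X : C) :
    ∃ N : ℕ, t.IsLE X N ∧ t.IsGE X (-N) := by
  obtain ⟨N, hN⟩ := R.bounded X
  exact ⟨N, isLE_of hc he fun i hi => hN i (by omega), isGE_of hc he fun i hi => hN i (by omega)⟩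

/-- The main theorem: if the pure objects generate, all objects are good. -/
theorem good_all (hc : Conservative R) (he : TExact t R)
    (hid : ∀ e : 𝟙_ C ⟶ 𝟙_ C, e ≫ e = e → e = 0 ∨ e = 𝟙 _) {T T' : C}
    (eT : T ⊗ T' ≅ 𝟙_ C) (h1 : R.Deg T (-2)) (h2 : R'.Deg T (-2)) {𝒬 : ObjectProperty C}
    (hgen : 𝒬.IsClassicalTriangulatedGenerator) (hb : ∀ Q, 𝒬 Q → ∀ n, bn R' Q n = bn R Q n)
    (hL : ∀ Q, 𝒬 Q → ∃ e : ℤ, ∀ k : ℕ, ∃ L : Q ⟶ twist T Q k, IsIso (R.H.map (L⟦e - k⟧')))
    (X : C) : GoodObj t R R' X := by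
  have ht := tensorCompat_of hc he
  have hu := unit_hrt_of hc he
  have i1 := goodObj_isTriangulated (R' := R') ht hc he hu hid
  have i2 := goodObj_retract (R' := R') ht hc he hu hid
  have h3 : 𝒬.triangEnvelope ≤ GoodObj t R R' := by
    rw [ObjectProperty.triangEnvelope_le_iff]
    intro Q hQ b
    obtain ⟨e, he'⟩ := hL Q hQ
    exact pure_good ht hc he hu hid eT h1 h2 (hb Q hQ) he' b
  rw [(ObjectProperty.isClassicalTriangulatedGenerator_iff _).1 hgen] at h3
  exact h3 X trivial

/-- The second realisation is t-exact. -/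
theorem exact_all (hc : Conservative R) (he : TExact t R)
    (hg : ∀ X : C, GoodObj t R R' X) : TExact t R' :=
  exact_of_good hg (bounded_of hc he)

/-- The Betti numbers of all objects agree. -/
theorem betti_all (he : TExact t R) (he' : TExact t R') (hg : ∀ X : C, GoodObj t R R' X) (X : C)
    (n : ℤ) : bn R' X n = bn R X n := by
  rw [← bn_coh he, ← bn_coh he']
  exact (hg X n).2

lemma finrank_range_congr {M N M' N' : ModuleCat.{w} E} (f : M ⟶ N) (f' : M' ⟶ N') (a : M ≅ M')
    (b : N ≅ N') (h : f ≫ b.hom = a.hom ≫ f') :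
    Module.finrank E (LinearMap.range f.hom) = Module.finrank E (LinearMap.range f'.hom) := by
  have h1 : LinearMap.range f'.hom = (LinearMap.range f.hom).map b.toLinearEquiv.toLinearMap := by
    ext y
    constructor
    · rintro ⟨x, rfl⟩
      refine ⟨f.hom (a.inv.hom x), ⟨_, rfl⟩, ?_⟩
      have h2 : a.inv ≫ f ≫ b.hom = f' := by rw [h, Iso.inv_hom_id_assoc]
      exact congrArg (fun φ => φ.hom x) h2
    · rintro ⟨_, ⟨x, rfl⟩, rfl⟩
      refine ⟨a.hom.hom x, ?_⟩
      exact (congrArg (fun φ => φ.hom x) h).symm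
  rw [h1]
  exact (LinearEquiv.finrank_eq (b.toLinearEquiv.submoduleMap (LinearMap.range f.hom)))

/-- The rank of the realisation of a morphism is the Betti number of an object in one degree. -/
theorem rank_coh (he : TExact t R) {X Y I : C} (f : X ⟶ Y) (n : ℤ) (p : coh t n X ⟶ I)
    (j : I ⟶ coh t n Y) (hpj : p ≫ j = (t.truncGELT n (n + 1)).map f) {K Q : C}
    {i : K ⟶ coh t n X} {d : I ⟶ K⟦(1 : ℤ)⟧} {q : coh t n Y ⟶ Q} {d' : Q ⟶ I⟦(1 : ℤ)⟧}
    (h1 : Triangle.mk i p d ∈ distTriang C) (h2 : Triangle.mk j q d' ∈ distTriang C)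
    (hK : t.IsLE K n) (hQ : t.IsGE Q n) :
    Module.finrank E (LinearMap.range (R.H.map (f⟦n⟧')).hom) = bn R I n := by
  have h3 : Module.finrank E (LinearMap.range (R.H.map (f⟦n⟧')).hom) =
      Module.finrank E (LinearMap.range
        (R.H.map (((t.truncGELT n (n + 1)).map f)⟦n⟧')).hom) :=
    (finrank_range_congr _ _ ((cohIso he n).app X) ((cohIso he n).app Y)
      ((cohIso he n).hom.naturality f)).symm
  have h4 := (ModuleCat.epi_iff_surjective _).1 (hepi2 R.H h1 n (he.isLE hK (n + 1) (by omega)))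
  have h5 := (ModuleCat.mono_iff_injective _).1 (hmono1 R.H h2 n (he.isGE hQ (n - 1) (by omega)))
  have h6 : R.H.map (((t.truncGELT n (n + 1)).map f)⟦n⟧') = R.H.map (p⟦n⟧') ≫ R.H.map (j⟦n⟧') := by
    rw [← Functor.map_comp, ← Functor.map_comp, hpj]
  rw [h3, h6]
  have h7 : LinearMap.range (R.H.map (p⟦n⟧') ≫ R.H.map (j⟦n⟧')).hom =
      LinearMap.range (R.H.map (j⟦n⟧')).hom := by
    rw [ModuleCat.hom_comp, LinearMap.range_comp, LinearMap.range_eq_top.2 h4, Submodule.map_top]
  rw [h7]
  exact LinearMap.finrank_range_of_inj h5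

/-- The ranks of the realisations of all morphisms agree. -/
theorem rank_all (he : TExact t R) (he' : TExact t R') (hg : ∀ X : C, GoodObj t R R' X)
    {X Y : C} (f : X ⟶ Y) (n : ℤ) :
    Module.finrank E' (LinearMap.range (R'.H.map (f⟦n⟧')).hom) =
      Module.finrank E (LinearMap.range (R.H.map (f⟦n⟧')).hom) := by
  obtain ⟨K, I, Q, i, p, d, j, q, d', h1, h2, h3, ⟨hK1, hK2⟩, ⟨hI1, hI2⟩, ⟨hQ1, hQ2⟩⟩ :=
    ker_im ((t.truncGELT n (n + 1)).map f) (coh_isLE t n X) (coh_isGE t n X) (coh_isLE t n Y)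
      (coh_isGE t n Y)
  rw [rank_coh he f n p j h3 h1 h2 hK1 hQ2, rank_coh he' f n p j h3 h1 h2 hK1 hQ2]
  exact betti_all he he' hg I n

end

end Pool.Agent.Helper812_MT
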