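import Pool.Agent.Helper812_MT.Trunc

/-!
# Betti numbers of the cohomology objects
-/

set_option autoImplicit false
set_option linter.unusedSectionVars false
set_option linter.unusedSimpArgs false
set_option backward.isDefEq.respectTransparency false
set_option backward.defeqAttrib.useBackward true

open CategoryTheory Limits MonoidalCategory TensorProduct Pretriangulated Triangulated

namespace Pool.Agent.Helper812_MT

open Pool.Agent.Y116.MT Pool.Agent.V1178.MT

universe v u w

section

variable {C : Type u} [Category.{v} C] [Preadditive C] [HasZeroObject C] [HasShift C ℤ]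
  [∀ n : ℤ, (shiftFunctor C n).Additive] [Pretriangulated C] [MonoidalCategory C]
  [SymmetricCategory C] [TensorTriangulated C] [IsTriangulated C] [MonoidalPreadditive C]
  [RightRigidCategory C]
  {E : Type w} [Field E] {R : Realisation C E} {t : TStructure C}

/-- A Betti number of a bounded object is at most the sum of those of its cohomology objects. -/
lemma bn_trunc_le {X : C} {a : ℤ} (ha : t.IsGE X a) (n m : ℤ) (hm : a ≤ m) :
    bn R ((t.truncLT m).obj X) n ≤ ∑ b ∈ Finset.Ico a m, bn R (coh t b X) n := by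
  induction m, hm using Int.leInduction with
  | base => rw [bn_of_isZero (t.isZero_truncLT_obj_of_isGE a X)]; exact Nat.zero_le _
  | succ m hm ih =>
    obtain ⟨f, g, h, hT⟩ := coh_tri t m X
    have h1 : Finset.Ico a (m + 1) = insert m (Finset.Ico a m) := by
      ext x
      simp only [Finset.mem_Ico, Finset.mem_insert]
      omega
    rw [h1, Finset.sum_insert (by simp)]
    have h2 := bn_tri_le (R := R) hT n
    omega

lemma bn_le_sum_coh {X : C} {a b : ℤ} (ha : t.IsGE X a) (hb : t.IsLE X b) (n : ℤ)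
    (s : Finset ℤ) (hs : ∀ i, a ≤ i → i ≤ b → i ∈ s) :
    bn R X n ≤ ∑ i ∈ s, bn R (coh t i X) n := by
  by_cases hab : a ≤ b + 1
  · have h1 := bn_trunc_le (R := R) ha n (b + 1) hab
    have h2 := (t.isLE_iff_isIso_truncLTι_app b (b + 1) rfl X).1 hb
    rw [bn_iso (asIso ((t.truncLTι (b + 1)).app X))] at h1
    refine h1.trans (Finset.sum_le_sum_of_subset fun i hi => ?_)
    rw [Finset.mem_Ico] at hi
    exact hs i hi.1 (by omega)
  · have h1 : IsZero X := t.isZero X b a (by omega)
    rw [bn_of_isZero h1]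
    exact Nat.zero_le _

lemma TExact.bn_le (he : TExact t R) {X : C} {n : ℤ} (h : t.IsLE X n) (i : ℤ) (hi : n < i) :
    bn R X i = 0 := bn_eq_zero_iff.2 (he.isLE h i hi)

lemma TExact.bn_ge (he : TExact t R) {X : C} {n : ℤ} (h : t.IsGE X n) (i : ℤ) (hi : i < n) :
    bn R X i = 0 := bn_eq_zero_iff.2 (he.isGE h i hi)

lemma TExact.deg' (he : TExact t R) {X : C} {n : ℤ} (h1 : t.IsLE X n) (h2 : t.IsGE X n) :
    R.Deg X n := fun i hi => by
  rcases lt_or_gt_of_ne hi with h | h
  · exact he.isGE h2 i h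
  · exact he.isLE h1 i h

/-- For a t-exact realisation, the Betti numbers of the cohomology objects are the Betti numbers of
the object. -/
lemma bn_coh (he : TExact t R) (X : C) (b : ℤ) : bn R (coh t b X) b = bn R X b := by
  obtain ⟨f, g, h, hT⟩ := coh_tri t b X
  obtain ⟨f', g', h', hT'⟩ := trunc_tri t (b + 1) X
  have h1 : t.IsLE ((t.truncLT b).obj X) (b - 1) := inferInstance
  have h2 : t.IsLE ((t.truncLT (b + 1)).obj X) b := inferInstance
  have h3 : t.IsGE ((t.truncGE (b + 1)).obj X) (b + 1) := inferInstance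
  have h4 := bn_tri_eq (R := R) hT b (TExact.bn_ge he (coh_isGE t b X) _ (by omega))
    (TExact.bn_le he h1 _ (by omega))
  have h5 := bn_tri_eq (R := R) hT' b (TExact.bn_ge he h3 _ (by omega))
    (TExact.bn_le he h2 _ (by omega))
  rw [TExact.bn_le he h1 b (by omega)] at h4
  rw [TExact.bn_ge he h3 b (by omega)] at h5
  omega

/-- A morphism between objects in the same single degree is an isomorphism if its realisation
is. -/
lemma isIso_of_deg (hc : Conservative R) {X Y : C} {b : ℤ} (hX : R.Deg X b) (hY : R.Deg Y b)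
    (f : X ⟶ Y) (hf : IsIso (R.H.map (f⟦b⟧'))) : IsIso f := by
  obtain ⟨W, g, h, hT⟩ := distinguished_cocone_triangle f
  apply isIso1_of_isZero3 hT
  apply hc
  intro i
  by_cases hi : i = b
  · subst hi
    have h1 := hepi2 R.H hT i (hX (i + 1) (by omega))
    have h2 : R.H.map (f⟦i⟧') ≫ R.H.map (g⟦i⟧') = 0 := by
      rw [← Functor.map_comp, ← Functor.map_comp, comp12 hT, Functor.map_zero, Functor.map_zero]
    have h3 : R.H.map (g⟦i⟧') = 0 := by
      rw [← cancel_epi (R.H.map (f⟦i⟧')), h2, comp_zero]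
    rw [IsZero.iff_id_eq_zero, ← cancel_epi (R.H.map (g⟦i⟧')), h3, zero_comp, zero_comp]
  · by_cases hi' : i + 1 = b
    · have h1 := hmono2 R.H (rotD hT) i (hY i hi)
      have h2 : R.H.map (h⟦i⟧') ≫ R.H.map ((f⟦(1 : ℤ)⟧')⟦i⟧') = 0 := by
        rw [← Functor.map_comp, ← Functor.map_comp, comp31 hT, Functor.map_zero, Functor.map_zero]
      have h4 : IsIso (R.H.map ((f⟦(1 : ℤ)⟧')⟦i⟧')) := by
        have e := Arrow.isoOfNatIso (shiftFunctorAdd' C 1 i b (by omega)) (Arrow.mk f)
        have e2 : Arrow.mk (R.H.map (f⟦b⟧')) ≅ Arrow.mk (R.H.map ((f⟦(1 : ℤ)⟧')⟦i⟧')) :=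
          R.H.mapArrow.mapIso e
        exact (MorphismProperty.arrow_mk_iso_iff (MorphismProperty.isomorphisms _) e2).1 hf
      have h3 : R.H.map (h⟦i⟧') = 0 := by
        rw [← cancel_mono (R.H.map ((f⟦(1 : ℤ)⟧')⟦i⟧')), h2, zero_comp]
      rw [IsZero.iff_id_eq_zero, ← cancel_mono (R.H.map (h⟦i⟧')), h3, comp_zero, comp_zero]
    · exact hz3 R.H hT i (hY i hi) (hX (i + 1) hi')

/-- A morphism which induces an isomorphism on the realisation in degree `b` induces an
isomorphism on the cohomology objects. -/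
lemma coh_isIso (hc : Conservative R) (he : TExact t R) {X Y : C} (f : X ⟶ Y) (b : ℤ)
    (hf : IsIso (R.H.map (f⟦b⟧'))) : IsIso ((t.truncGELT b (b + 1)).map f) := by
  have key1 : ∀ W : C, IsIso (R.H.map (((t.truncLTι (b + 1)).app W)⟦b⟧')) := by
    intro W
    have h3 : t.IsGE ((t.truncGE (b + 1)).obj W) (b + 1) := inferInstance
    have hT := t.triangleLTGE_distinguished (b + 1) W
    have h1 := hmono1 R.H hT b (he.isGE h3 _ (by omega))
    have h2 := hepi1 R.H hT b (he.isGE h3 _ (by omega))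
    exact isIso_of_mono_of_epi _
  have key2 : ∀ W : C, IsIso (R.H.map (((t.truncGEπ b).app ((t.truncLT (b + 1)).obj W))⟦b⟧')) := by
    intro W
    have h3 : t.IsLE ((t.truncLT b).obj ((t.truncLT (b + 1)).obj W)) (b - 1) := inferInstance
    have hT := t.triangleLTGE_distinguished b ((t.truncLT (b + 1)).obj W)
    have h1 := hmono2 R.H hT b (he.isLE h3 _ (by omega))
    have h2 := hepi2 R.H hT b (he.isLE h3 _ (by omega))
    exact isIso_of_mono_of_epi _
  apply isIso_of_deg hc (TExact.deg' he (coh_isLE t b X) (coh_isGE t b X))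
    (TExact.deg' he (coh_isLE t b Y) (coh_isGE t b Y))
  have h1 : IsIso (R.H.map (((t.truncLT (b + 1)).map f)⟦b⟧')) := by
    have h2 : R.H.map (((t.truncLT (b + 1)).map f)⟦b⟧') ≫
        R.H.map (((t.truncLTι (b + 1)).app Y)⟦b⟧') =
        R.H.map (((t.truncLTι (b + 1)).app X)⟦b⟧') ≫ R.H.map (f⟦b⟧') := by
      rw [← Functor.map_comp, ← Functor.map_comp, ← Functor.map_comp, ← Functor.map_comp,
        (t.truncLTι (b + 1)).naturality f]
      rfl
    have h3 := key1 X
    have h4 := key1 Y
    have h5 : IsIso (R.H.map (((t.truncLT (b + 1)).map f)⟦b⟧') ≫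
        R.H.map (((t.truncLTι (b + 1)).app Y)⟦b⟧')) := by
      rw [h2]
      infer_instance
    exact IsIso.of_isIso_comp_right _ (R.H.map (((t.truncLTι (b + 1)).app Y)⟦b⟧'))
  have h2 : R.H.map (((t.truncGEπ b).app ((t.truncLT (b + 1)).obj X))⟦b⟧') ≫
      R.H.map (((t.truncGELT b (b + 1)).map f)⟦b⟧') =
      R.H.map (((t.truncLT (b + 1)).map f)⟦b⟧') ≫
      R.H.map (((t.truncGEπ b).app ((t.truncLT (b + 1)).obj Y))⟦b⟧') := by
    rw [← Functor.map_comp, ← Functor.map_comp, ← Functor.map_comp, ← Functor.map_comp]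
    rw [show (t.truncGELT b (b + 1)).map f = (t.truncGE b).map ((t.truncLT (b + 1)).map f) from rfl,
      TStructure.truncGEπ_naturality]
  have h3 := key2 X
  have h4 := key2 Y
  have h5 : IsIso (R.H.map (((t.truncGEπ b).app ((t.truncLT (b + 1)).obj X))⟦b⟧') ≫
      R.H.map (((t.truncGELT b (b + 1)).map f)⟦b⟧')) := by
    rw [h2]
    infer_instance
  exact IsIso.of_isIso_comp_left (R.H.map (((t.truncGEπ b).app ((t.truncLT (b + 1)).obj X))⟦b⟧')) _

end

end Pool.Agent.Helper812_MT
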