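import Pool.Agent.Helper812_MT.Odd

/-!
# An arbitrary realisation on the heart of a motivic t-structure
-/

set_option autoImplicit false
set_option linter.unusedSectionVars false
set_option linter.unusedSimpArgs false
set_option backward.isDefEq.respectTransparency false
set_option backward.defeqAttrib.useBackward true

open CategoryTheory Limits MonoidalCategory TensorProduct Pretriangulated Triangulated

namespace Pool.Agent.Helper812_MT

open Pool.Agent.Y116.MT Pool.Agent.V1178.MT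

universe v u w

open Functor.LaxMonoidal

section

variable {C : Type u} [Category.{v} C] [Preadditive C] [HasZeroObject C] [HasShift C ℤ]
  [∀ n : ℤ, (shiftFunctor C n).Additive] [Pretriangulated C] [MonoidalCategory C]
  [SymmetricCategory C] [TensorTriangulated C] {E : Type w} [Field E] (R : Realisation C E)
  [MonoidalPreadditive C]

lemma isZero_of_symm_zero [CharZero E] {X Z : C} {n : ℕ} (h : symm X Z n = 0)
    (hX : ¬ IsZero (R.H.obj X)) : IsZero (R.H.obj Z) := by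
  refine isZero_of_symm (R.H.obj X) (R.H.obj Z) (n := n) ?_ hX
  have h1 := mono_kap R X Z n
  rw [← cancel_mono (kap R.H X Z n), symm_lax, h, Functor.map_zero, comp_zero, zero_comp]

lemma symm_shift {ε : ℤ} (hε : (β_ ((𝟙_ C)⟦ε⟧) ((𝟙_ C)⟦ε⟧)).hom = -𝟙 _) {X Z : C} {n : ℕ}
    (h : symm X Z n = 0) (hX : ¬ IsZero (R.H.obj X)) (c : ℕ) :
    ∃ X' Z' : C, symm X' Z' n = 0 ∧ ¬ IsZero (R.H.obj X') ∧
      Nonempty (Z' ≅ Z⟦(c : ℤ) * (ε + ε)⟧) := by
  induction c with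
  | zero =>
    exact ⟨X, Z, h, hX, ⟨((shiftFunctorZero' C (((0 : ℕ) : ℤ) * (ε + ε)) (by simp)).app Z).symm⟩⟩
  | succ c ih =>
    obtain ⟨X', Z', h1, h2, ⟨e⟩⟩ := ih
    refine ⟨X' ⊗ 𝟙_ C, Z' ⊗ ((𝟙_ C)⟦ε⟧ ⊗ (𝟙_ C)⟦ε⟧), symm_twist (braid_square hε) h1 _,
      fun h3 => h2 (h3.of_iso (R.H.mapIso (ρ_ X').symm)), ⟨?_⟩⟩
    exact tensorUnitShiftTwice Z' ε ≪≫ (shiftFunctor C (ε + ε)).mapIso e ≪≫
      ((shiftFunctorAdd' C ((c : ℤ) * (ε + ε)) (ε + ε) (((c + 1 : ℕ) : ℤ) * (ε + ε))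
        (by push_cast; ring)).app Z).symm

/-- If the antisymmetrizer vanishes, the odd cohomology vanishes. -/
theorem isZero_odd [CharZero E] {X Z : C} {n : ℕ} (h : alt X Z n = 0)
    (hX : ¬ IsZero (R.H.obj X)) (c : ℤ) : IsZero (R.H.obj (Z⟦1 + (c + c)⟧)) := by
  have h0 : symm (X ⊗ 𝟙_ C) (Z ⊗ (𝟙_ C)⟦(1 : ℤ)⟧) n = 0 :=
    symm_twist_neg TensorTriangulated.sign h _
  have hX0 : ¬ IsZero (R.H.obj (X ⊗ 𝟙_ C)) := fun h3 => hX (h3.of_iso (R.H.mapIso (ρ_ X).symm))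
  have e0 : ∀ m : ℤ, m = c + c → ((Z ⊗ (𝟙_ C)⟦(1 : ℤ)⟧)⟦m⟧ ≅ Z⟦1 + (c + c)⟧) := fun m hm =>
    (shiftFunctor C m).mapIso (tensorUnitShift Z 1) ≪≫
      ((shiftFunctorAdd' C 1 m (1 + (c + c)) (by rw [hm])).app Z).symm
  rcases Int.le_total 0 c with hc | hc
  · obtain ⟨k, hk⟩ := Int.eq_ofNat_of_zero_le hc
    obtain ⟨X', Z', h1, h2, ⟨e⟩⟩ := symm_shift R TensorTriangulated.sign h0 hX0 k
    have h3 := isZero_of_symm_zero R h1 h2
    exact h3.of_iso (R.H.mapIso (e ≪≫ e0 _ (by rw [hk]; ring)).symm)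
  · obtain ⟨k, hk⟩ := Int.eq_ofNat_of_zero_le (Int.neg_nonneg_of_nonpos hc)
    obtain ⟨X', Z', h1, h2, ⟨e⟩⟩ := symm_shift R braid_minus h0 hX0 k
    have h3 := isZero_of_symm_zero R h1 h2
    exact h3.of_iso (R.H.mapIso (e ≪≫ e0 _ (by
      have : (k : ℤ) = -c := hk.symm
      rw [this]
      ring)).symm)

variable {R}

lemma lShift_natural {X X' : C} (f : X ⟶ X') (Y : C) (i : ℤ) :
    (f⟦i⟧' ▷ Y) ≫ (lShift X' Y i).hom = (lShift X Y i).hom ≫ (f ▷ Y)⟦i⟧' := by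
  simp only [lShift, Iso.trans_hom, Functor.mapIso_hom]
  rw [BraidedCategory.braiding_naturality_left_assoc, ← Category.assoc (Y ◁ _),
    rShift_natural_right]
  simp only [Category.assoc, ← Functor.map_comp]
  rw [BraidedCategory.braiding_naturality_right]

lemma shiftTensorIso_natural {X X' : C} (f : X ⟶ X') (Y : C) (i : ℤ) :
    (f⟦i⟧' ▷ (Y⟦-i⟧)) ≫ (shiftTensorIso X' Y i).hom = (shiftTensorIso X Y i).hom ≫ (f ▷ Y) := by
  have h1 : (f ▷ Y)⟦i⟧'⟦-i⟧' ≫ (shiftShiftNeg (X' ⊗ Y) i).hom =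
      (shiftShiftNeg (X ⊗ Y) i).hom ≫ (f ▷ Y) :=
    (shiftEquiv C i).unitIso.inv.naturality (f ▷ Y)
  have h2 := lShift_natural f Y i
  simp only [shiftTensorIso, Iso.trans_hom, Functor.mapIso_hom]
  rw [← Category.assoc, rShift_natural_left]
  simp only [Category.assoc]
  rw [← Functor.map_comp_assoc, h2, Functor.map_comp_assoc, h1]

/-- If `f` has zero realisation in all degrees, so has `f ▷ Y`, in degree zero. -/
lemma map_whisker_zero_of {X X' : C} (f : X ⟶ X') (hf : ∀ i : ℤ, R.H.map (f⟦i⟧') = 0) (Y : C) :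
    R.H.map (f ▷ Y) = 0 := by
  ext z
  obtain ⟨y, rfl⟩ := (R.kunneth X Y).2 z
  induction y using DirectSum.induction_on with
  | zero => simp
  | of i x =>
    have h1 : kunnethMap R.H X Y (DirectSum.of (fun i : ℤ =>
        (R.H.obj (X⟦i⟧) ⊗ R.H.obj (Y⟦-i⟧) : ModuleCat.{w} E)) i x) =
        (μ R.H (X⟦i⟧) (Y⟦-i⟧) ≫ R.H.map (shiftTensorIso X Y i).hom) x := by
      rw [← DirectSum.lof_eq_of E]
      simp [kunnethMap]
    rw [h1]
    have h2 : (μ R.H (X⟦i⟧) (Y⟦-i⟧) ≫ R.H.map (shiftTensorIso X Y i).hom) ≫ R.H.map (f ▷ Y) = 0 := by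
      have h3 : (0 : R.H.obj (X⟦i⟧) ⟶ R.H.obj (X'⟦i⟧)) ▷ R.H.obj (Y⟦-i⟧) = 0 :=
        (tensorRight _).map_zero _ _
      rw [Category.assoc, ← Functor.map_comp, ← shiftTensorIso_natural, Functor.map_comp,
        ← Category.assoc, ← μ_natural_left, hf, h3, zero_comp, zero_comp]
    exact congrArg (fun φ => φ x) h2
  | add a b ha hb =>
    rw [map_add, map_add, map_add, ha, hb]

end

section

variable {C : Type u} [Category.{v} C] [Preadditive C] [HasZeroObject C] [HasShift C ℤ]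
  [∀ n : ℤ, (shiftFunctor C n).Additive] [Pretriangulated C] [MonoidalCategory C]
  [SymmetricCategory C] [TensorTriangulated C] [MonoidalPreadditive C] [RightRigidCategory C]
  [IsTriangulated C] {E E' : Type w} [Field E] [Field E'] [CharZero E'] {R : Realisation C E}
  {R' : Realisation C E'} {t : TStructure C} (ht : TensorCompat t) (he : TExact t R)
  (hu : Hrt t (𝟙_ C)) (hid : ∀ e : 𝟙_ C ⟶ 𝟙_ C, e ≫ e = e → e = 0 ∨ e = 𝟙 _)

include ht he hu hid

/-- The odd cohomology of an object of the heart vanishes. -/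
lemma heart_odd {Z : C} (hZ : Hrt t Z) {n : ℤ} (hn : Odd n) : bn R' Z n = 0 := by
  obtain ⟨c, rfl⟩ := hn
  rw [bn_eq_zero_iff]
  have h1 := isZero_odd R' (alt_heart ht he hu hid hZ) (not_isZero_H_unit R') c
  rwa [show 1 + (c + c) = 2 * c + 1 by ring] at h1

/-- The cohomology of an object in degree `b` lives in the degrees of the parity of `b`. -/
lemma parity {X : C} {b n : ℤ} (h1 : t.IsLE X b) (h2 : t.IsGE X b) (hn : Odd (n - b)) :
    bn R' X n = 0 := by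
  have h3 : Hrt t (X⟦b⟧) := ⟨t.isLE_shift X b b 0, t.isGE_shift X b b 0⟩
  have h4 := heart_odd (R' := R') ht he hu hid h3 hn
  rwa [bn_shift X b (n - b) n (by ring)] at h4

/-- Exactness of the cohomology of each degree on the objects in degree `b`. -/
theorem heart_exact {X Y Z : C} {f : X ⟶ Y} {g : Y ⟶ Z} {h : Z ⟶ X⟦(1 : ℤ)⟧}
    (hT : Triangle.mk f g h ∈ distTriang C) {b : ℤ} (hX1 : t.IsLE X b) (hX2 : t.IsGE X b)
    (hZ1 : t.IsLE Z b) (hZ2 : t.IsGE Z b) (n : ℤ) : bn R' Y n = bn R' X n + bn R' Z n := by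
  rcases Int.even_or_odd (n - b) with hn | hn
  · apply bn_tri_eq hT n
    · exact parity (R' := R') ht he hu hid hZ1 hZ2 (by
        obtain ⟨c, hc⟩ := hn
        exact ⟨c - 1, by omega⟩)
    · exact parity (R' := R') ht he hu hid hX1 hX2 (by
        obtain ⟨c, hc⟩ := hn
        exact ⟨c, by omega⟩)
  · have hY1 : t.IsLE Y b := le2 hT hX1 hZ1
    have hY2 : t.IsGE Y b := ge2 hT hX2 hZ2
    rw [parity (R' := R') ht he hu hid hX1 hX2 hn, parity (R' := R') ht he hu hid hZ1 hZ2 hn,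
      parity (R' := R') ht he hu hid hY1 hY2 hn]

/-- The second realisation does not kill non zero maps from the unit to objects of the heart. -/
lemma H_ne_zero' {Q : C} (s : 𝟙_ C ⟶ Q) (hQ : Hrt t Q) (hs : s ≠ 0) : R'.H.map s ≠ 0 := by
  obtain ⟨Z, q, δ, hT⟩ := distinguished_cocone_triangle s
  have hZ := unit_simple ht hu hid hT hQ hs
  have h1 : bn R' Z (0 - 1) = 0 := heart_odd (R' := R') ht he hu hid hZ ⟨-1, by ring⟩
  have h2 := hmono1 R'.H hT 0 (bn_eq_zero_iff.1 h1)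
  intro h3
  have h4 : R'.H.map (s⟦(0 : ℤ)⟧') = 0 := by
    have h5 : s⟦(0 : ℤ)⟧' = (shiftFunctorZero C ℤ).hom.app _ ≫ s ≫
        (shiftFunctorZero C ℤ).inv.app _ := shiftZero' (A := ℤ) (f := s)
    rw [h5, Functor.map_comp, Functor.map_comp, h3, zero_comp, comp_zero]
  have h6 : IsZero (R'.H.obj ((𝟙_ C)⟦(0 : ℤ)⟧)) := by
    rw [IsZero.iff_id_eq_zero, ← cancel_mono (R'.H.map (s⟦(0 : ℤ)⟧')), h4, comp_zero, comp_zero]
  exact not_isZero_H_unit R' (h6.of_iso (R'.H.mapIso ((shiftFunctorZero C ℤ).app _).symm))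

/-- The second realisation is faithful on the heart. -/
theorem faithful_heart' {M N : C} (hM : Hrt t M) (hN : Hrt t N) (f : M ⟶ N)
    (hf : ∀ i : ℤ, R'.H.map (f⟦i⟧') = 0) : f = 0 := by
  apply eq_zero_of_nm
  by_contra h
  refine H_ne_zero' (R' := R') ht he hu hid (nm f) (ht.hrt hN (dual_hrt ht hu hM)) h ?_
  rw [nm, Functor.map_comp, map_whisker_zero_of f hf, comp_zero]

end

end Pool.Agent.Helper812_MT
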