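import Pool.Agent.Helper812_MT.Even
import Pool.Agent.V1178.MT.Main

/-!
# Betti numbers of a realisation
-/

set_option autoImplicit false
set_option linter.unusedSectionVars false
set_option linter.unusedSimpArgs false
set_option backward.isDefEq.respectTransparency false
set_option backward.defeqAttrib.useBackward true

open CategoryTheory Limits MonoidalCategory TensorProduct Pretriangulated Triangulated

namespace Pool.Agent.Helper812_MT

open Pool.Agent.Y116.MT

universe v u w

open Functor.LaxMonoidal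

lemma card_sigma_fin (f : ℤ → ℕ) (s : Finset ℤ) (hs : ∀ i, i ∉ s → f i = 0) :
    Nat.card (Σ i : ℤ, Fin (f i)) = ∑ i ∈ s, f i := by
  let e : (Σ i : ℤ, Fin (f i)) ≃ (Σ i : s, Fin (f i)) :=
    { toFun := fun x => ⟨⟨x.1, by
        by_contra h
        have := hs _ h
        exact (Fin.cast this x.2).elim0⟩, x.2⟩
      invFun := fun x => ⟨x.1.1, x.2⟩
      left_inv := fun x => rfl
      right_inv := fun x => rfl }
  rw [Nat.card_congr e, Nat.card_eq_fintype_card, Fintype.card_sigma]
  simp only [Fintype.card_fin]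
  exact Finset.sum_coe_sort s f

lemma finrank_directSum' {E : Type w} [Field E] (M : ℤ → Type w) [∀ i, AddCommGroup (M i)]
    [∀ i, Module E (M i)] [∀ i, Module.Finite E (M i)] (s : Finset ℤ)
    (hs : ∀ i, i ∉ s → Module.finrank E (M i) = 0) :
    Module.finrank E (DirectSum ℤ M) = ∑ i ∈ s, Module.finrank E (M i) := by
  classical
  rw [← card_sigma_fin _ s hs]
  exact Module.finrank_eq_nat_card_basis (DFinsupp.basis (fun i => Module.finBasis E (M i)))

section

variable {C : Type u} [Category.{v} C] [Preadditive C] [HasZeroObject C] [HasShift C ℤ]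
  [∀ n : ℤ, (shiftFunctor C n).Additive] [Pretriangulated C] [MonoidalCategory C]
  [SymmetricCategory C] [TensorTriangulated C] {E : Type w} [Field E] (R : Realisation C E)

/-- The Betti numbers: the dimension of the cohomology of degree `n`. -/
noncomputable def bn (X : C) (n : ℤ) : ℕ := Module.finrank E (R.H.obj (X⟦n⟧))

variable {R}

lemma finrank_iso {X Y : C} (e : X ≅ Y) :
    Module.finrank E (R.H.obj X) = Module.finrank E (R.H.obj Y) :=
  LinearEquiv.finrank_eq (R.H.mapIso e).toLinearEquiv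

lemma bn_iso {X Y : C} (e : X ≅ Y) (n : ℤ) : bn R X n = bn R Y n :=
  finrank_iso ((shiftFunctor C n).mapIso e)

lemma bn_shift (X : C) (m n k : ℤ) (h : m + n = k) : bn R (X⟦m⟧) n = bn R X k :=
  finrank_iso ((shiftFunctorAdd' C m n k h).symm.app X)

lemma bn_zero' (X : C) : bn R X 0 = Module.finrank E (R.H.obj X) :=
  finrank_iso ((shiftFunctorZero C ℤ).app X)

lemma bn_eq_zero_iff {X : C} {n : ℤ} : bn R X n = 0 ↔ IsZero (R.H.obj (X⟦n⟧)) := by
  rw [ModuleCat.isZero_iff_subsingleton]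
  exact Module.finrank_zero_iff

lemma bn_of_isZero {X : C} (h : IsZero X) (n : ℤ) : bn R X n = 0 :=
  bn_eq_zero_iff.2 (R.H.map_isZero (isZero_shift h n))

/-- The Künneth formula. -/
lemma bn_tensor (X Y : C) (n : ℤ) (s : Finset ℤ) (hs : ∀ i, i ∉ s → bn R X i = 0) :
    bn R (X ⊗ Y) n = ∑ i ∈ s, bn R X i * bn R Y (n - i) := by
  have h1 : bn R (X ⊗ Y) n = Module.finrank E (R.H.obj (X ⊗ Y⟦n⟧)) :=
    finrank_iso (rShift X Y n).symm
  have h2 : ∀ i : ℤ, Module.finrank E (R.H.obj (X⟦i⟧) ⊗ R.H.obj (Y⟦n⟧⟦-i⟧) : ModuleCat.{w} E) =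
      bn R X i * bn R Y (n - i) := by
    intro i
    have h3 : Module.finrank E (R.H.obj (X⟦i⟧) ⊗ R.H.obj (Y⟦n⟧⟦-i⟧) : ModuleCat.{w} E) =
      Module.finrank E (R.H.obj (X⟦i⟧)) * Module.finrank E (R.H.obj (Y⟦n⟧⟦-i⟧)) :=
      Module.finrank_tensorProduct
    rw [h3]
    congr 1
    exact bn_shift Y n (-i) (n - i) (by omega)
  have h4 : Module.finrank E (DirectSum ℤ (fun i : ℤ =>
      (R.H.obj (X⟦i⟧) ⊗ R.H.obj (Y⟦n⟧⟦-i⟧) : ModuleCat.{w} E))) =
      ∑ i ∈ s, bn R X i * bn R Y (n - i) := by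
    have h5 : ∀ i : ℤ, Module.Finite E (R.H.obj (X⟦i⟧) ⊗ R.H.obj (Y⟦n⟧⟦-i⟧) : ModuleCat.{w} E) :=
      fun i => inferInstanceAs (Module.Finite E ((R.H.obj (X⟦i⟧)) ⊗[E] (R.H.obj (Y⟦n⟧⟦-i⟧))))
    rw [finrank_directSum' (fun i : ℤ =>
      (R.H.obj (X⟦i⟧) ⊗ R.H.obj (Y⟦n⟧⟦-i⟧) : ModuleCat.{w} E)) s]
    · exact Finset.sum_congr rfl fun i _ => h2 i
    · intro i hi
      rw [h2, hs i hi, zero_mul]
  rw [h1, ← h4]
  exact (LinearEquiv.finrank_eq (LinearEquiv.ofBijective _ (R.kunneth X (Y⟦n⟧)))).symm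

lemma bn_mul_le (X Y : C) (a b n : ℤ) (h : a + b = n) :
    bn R X a * bn R Y b ≤ bn R (X ⊗ Y) n := by
  obtain ⟨N, hN⟩ := R.bounded X
  have h1 := bn_tensor (R := R) X Y n (insert a (Finset.Icc (-(N : ℤ)) N)) (by
    intro i hi
    rw [bn_eq_zero_iff]
    apply hN
    simp only [Finset.mem_insert, Finset.mem_Icc, not_or, not_and_or, not_le] at hi
    omega)
  rw [h1]
  have h2 := Finset.single_le_sum (f := fun i => bn R X i * bn R Y (n - i))
    (fun i _ => Nat.zero_le _) (Finset.mem_insert_self a (Finset.Icc (-(N : ℤ)) N))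
  rwa [show n - a = b by omega] at h2

variable (R) in
/-- The total Betti number. -/
noncomputable def tot (X : C) : ℕ := ∑ᶠ n : ℤ, bn R X n

lemma bn_support_finite (X : C) : (Function.support (bn R X)).Finite := by
  obtain ⟨N, hN⟩ := R.bounded X
  refine (Finset.Icc (-(N : ℤ)) N).finite_toSet.subset fun i hi => ?_
  by_contra h
  apply hi
  rw [bn_eq_zero_iff]
  apply hN
  simp only [Finset.coe_Icc, Set.mem_Icc, not_and_or, not_le] at h
  omega

lemma tot_eq (X : C) (s : Finset ℤ) (hs : ∀ i, i ∉ s → bn R X i = 0) :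
    tot R X = ∑ i ∈ s, bn R X i := by
  apply finsum_eq_sum_of_support_subset
  intro i hi
  by_contra h
  exact hi (hs i h)

lemma tot_iso {X Y : C} (e : X ≅ Y) : tot R X = tot R Y := by
  simp only [tot]
  exact finsum_congr fun n => bn_iso e n

lemma tot_shift (X : C) (m : ℤ) : tot R (X⟦m⟧) = tot R X := by
  simp only [tot]
  rw [← finsum_comp_equiv (Equiv.addLeft m) (f := bn R X)]
  exact finsum_congr fun n => bn_shift X m n (m + n) rfl

lemma bn_le_tot (X : C) (n : ℤ) : bn R X n ≤ tot R X :=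
  single_le_finsum n (bn_support_finite X) fun _ => Nat.zero_le _

/-- The total Betti number is multiplicative. -/
lemma tot_tensor (X Y : C) : tot R (X ⊗ Y) = tot R X * tot R Y := by
  let s := (bn_support_finite (R := R) X).toFinset
  have hs : ∀ i, i ∉ s → bn R X i = 0 := by
    intro i hi
    by_contra h
    exact hi ((bn_support_finite (R := R) X).mem_toFinset.2 h)
  have h1 : ∀ i : ℤ, ∑ᶠ n : ℤ, bn R X i * bn R Y (n - i) = bn R X i * tot R Y := by
    intro i
    rw [← mul_finsum]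
    congr 1
    rw [tot, ← finsum_comp_equiv (Equiv.subRight i) (f := bn R Y)]
    rfl
  rw [tot_eq X s hs, Finset.sum_mul]
  simp only [← h1]
  rw [tot]
  rw [← finsum_sum_comm]
  · exact finsum_congr fun n => bn_tensor X Y n s hs
  · intro i _
    refine ((bn_support_finite (R := R) Y).preimage
      (Function.Injective.injOn (sub_left_injective (b := i)))).subset ?_
    intro n hn
    simp only [Function.mem_support, ne_eq, mul_eq_zero, not_or] at hn
    exact hn.2

end

end Pool.Agent.Helper812_MT
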