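import Pool.Agent.Helper812_MT.Pure

/-!
# The objects with good cohomology objects form a thick subcategory
-/

set_option autoImplicit false
set_option linter.unusedSectionVars false
set_option linter.unusedSimpArgs false
set_option backward.isDefEq.respectTransparency false
set_option backward.defeqAttrib.useBackward true

open CategoryTheory Limits MonoidalCategory TensorProduct Pretriangulated Triangulated

namespace Pool.Agent.Helper812_MT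

open Pool.Agent.Y116.MT Pool.Agent.V1178.MT

universe v u w

section Tri

variable {C : Type u} [Category.{v} C] [Preadditive C] [HasZeroObject C] [HasShift C ℤ]
  [∀ n : ℤ, (shiftFunctor C n).Additive] [Pretriangulated C] [IsTriangulated C]
  {t : TStructure C}

lemma le2 {X Y Z : C} {f : X ⟶ Y} {g : Y ⟶ Z} {h : Z ⟶ X⟦(1 : ℤ)⟧}
    (hT : Triangle.mk f g h ∈ distTriang C) {n : ℤ} (hX : t.IsLE X n) (hZ : t.IsLE Z n) :
    t.IsLE Y n := t.isLE₂ _ hT n hX hZ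

lemma ge2 {X Y Z : C} {f : X ⟶ Y} {g : Y ⟶ Z} {h : Z ⟶ X⟦(1 : ℤ)⟧}
    (hT : Triangle.mk f g h ∈ distTriang C) {n : ℤ} (hX : t.IsGE X n) (hZ : t.IsGE Z n) :
    t.IsGE Y n := t.isGE₂ _ hT n hX hZ

lemma le3 {X Y Z : C} {f : X ⟶ Y} {g : Y ⟶ Z} {h : Z ⟶ X⟦(1 : ℤ)⟧}
    (hT : Triangle.mk f g h ∈ distTriang C) {n : ℤ} (hX : t.IsLE X (n + 1)) (hY : t.IsLE Y n) :
    t.IsLE Z n :=
  le2 (rotD hT) hY (t.isLE_shift X (n + 1) 1 n)

lemma ge3 {X Y Z : C} {f : X ⟶ Y} {g : Y ⟶ Z} {h : Z ⟶ X⟦(1 : ℤ)⟧}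
    (hT : Triangle.mk f g h ∈ distTriang C) {n : ℤ} (hX : t.IsGE X (n + 1)) (hY : t.IsGE Y n) :
    t.IsGE Z n :=
  ge2 (rotD hT) hY (t.isGE_shift X (n + 1) 1 n)

lemma le1 {X Y Z : C} {f : X ⟶ Y} {g : Y ⟶ Z} {h : Z ⟶ X⟦(1 : ℤ)⟧}
    (hT : Triangle.mk f g h ∈ distTriang C) {n : ℤ} (hY : t.IsLE Y n) (hZ : t.IsLE Z (n - 1)) :
    t.IsLE X n := by
  have h1 : t.IsLE (X⟦(1 : ℤ)⟧) (n - 1) :=
    le2 (rotD (rotD hT)) hZ (t.isLE_shift Y n 1 (n - 1))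
  exact t.isLE_of_shift X n 1 (n - 1)

lemma ge1 {X Y Z : C} {f : X ⟶ Y} {g : Y ⟶ Z} {h : Z ⟶ X⟦(1 : ℤ)⟧}
    (hT : Triangle.mk f g h ∈ distTriang C) {n : ℤ} (hY : t.IsGE Y n) (hZ : t.IsGE Z (n - 1)) :
    t.IsGE X n := by
  have h1 : t.IsGE (X⟦(1 : ℤ)⟧) (n - 1) :=
    ge2 (rotD (rotD hT)) hZ (t.isGE_shift Y n 1 (n - 1))
  exact t.isGE_of_shift X n 1 (n - 1)

/-- Kernel, image and cokernel of a morphism between objects of the degree `b`. -/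
lemma ker_im {M N : C} (f : M ⟶ N) {b : ℤ} (hM1 : t.IsLE M b) (hM2 : t.IsGE M b)
    (hN1 : t.IsLE N b) (hN2 : t.IsGE N b) :
    ∃ (K I Q : C) (i : K ⟶ M) (p : M ⟶ I) (d : I ⟶ K⟦(1 : ℤ)⟧) (j : I ⟶ N) (q : N ⟶ Q)
      (d' : Q ⟶ I⟦(1 : ℤ)⟧), Triangle.mk i p d ∈ distTriang C ∧ Triangle.mk j q d' ∈ distTriang C ∧
      p ≫ j = f ∧ (t.IsLE K b ∧ t.IsGE K b) ∧ (t.IsLE I b ∧ t.IsGE I b) ∧
      (t.IsLE Q b ∧ t.IsGE Q b) := by
  obtain ⟨F, a, d, hF⟩ := distinguished_cocone_triangle₁ f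
  have hF1 : t.IsGE F b := ge1 hF hM2 (t.isGE_of_ge N (b - 1) b)
  have hF2 : t.IsLE F (b + 1) := le1 hF (t.isLE_of_le M b (b + 1))
    (t.isLE_of_le N b (b + 1 - 1))
  obtain ⟨K, B, hK, hB, k, v, w, hKF⟩ := t.exists_triangle F b (b + 1) rfl
  have hK1 : t.IsLE K b := ⟨hK⟩
  have hB1 : t.IsGE B (b + 1) := ⟨hB⟩
  have hK2 : t.IsGE K b := ge1 hKF hF1 (t.isGE_of_ge B (b - 1) (b + 1))
  have hB2 : t.IsLE B (b + 1) := le3 hKF (t.isLE_of_le K b (b + 1 + 1)) hF2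
  obtain ⟨I, p, d', hI⟩ := distinguished_cocone_triangle (k ≫ a)
  have O := someOctahedron (rfl : k ≫ a = k ≫ a) hKF hF hI
  have hI0 : t.IsGE I b := ge2 O.mem (t.isGE_of_ge B b (b + 1)) hN2
  have hI1 : t.IsLE I b := le3 hI (t.isLE_of_le K b (b + 1)) hM1
  exact ⟨K, I, B⟦(1 : ℤ)⟧, k ≫ a, p, d', O.m₃, _, _, hI, rotD O.mem, O.comm₃, ⟨hK1, hK2⟩,
    ⟨hI1, hI0⟩, ⟨t.isLE_shift B (b + 1) 1 b, t.isGE_shift B (b + 1) 1 b⟩⟩

end Tri

section

variable {C : Type u} [Category.{v} C] [Preadditive C] [HasZeroObject C] [HasShift C ℤ]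
  [∀ n : ℤ, (shiftFunctor C n).Additive] [Pretriangulated C] [MonoidalCategory C]
  [SymmetricCategory C] [TensorTriangulated C] [IsTriangulated C] [MonoidalPreadditive C]
  [RightRigidCategory C]
  {E : Type w} [Field E] {R : Realisation C E} {t : TStructure C}
  {E' : Type w} [Field E'] {R' : Realisation C E'}

lemma Good.iso {X Y : C} {b : ℤ} (h : Good R R' b X) (e : X ≅ Y) : Good R R' b Y :=
  ⟨fun n hn => by rw [← bn_iso e, h.1 n hn], by rw [← bn_iso e, ← bn_iso e, h.2]⟩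

lemma Good.shift {X : C} {b : ℤ} (h : Good R R' b X) (m c : ℤ) (hc : m + c = b) :
    Good R R' c (X⟦m⟧) :=
  ⟨fun n hn => by rw [bn_shift X m n (m + n) rfl, h.1 _ (by omega)], by
    rw [bn_shift X m c b hc, bn_shift X m c b hc, h.2]⟩

lemma Good.ext (he : TExact t R) {X Y Z : C} {f : X ⟶ Y} {g : Y ⟶ Z} {h : Z ⟶ X⟦(1 : ℤ)⟧}
    (hT : Triangle.mk f g h ∈ distTriang C) {b : ℤ} (hX1 : t.IsLE X b) (hZ2 : t.IsGE Z b)
    (hX : Good R R' b X) (hZ : Good R R' b Z) : Good R R' b Y := by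
  refine ⟨fun n hn => ?_, ?_⟩
  · have h1 := bn_tri_le (R := R') hT n
    rw [hX.1 n hn, hZ.1 n hn] at h1
    omega
  · have h1 := bn_tri_eq (R := R') hT b (hZ.1 _ (by omega)) (hX.1 _ (by omega))
    have h2 := bn_tri_eq (R := R) hT b (TExact.bn_ge he hZ2 _ (by omega))
      (TExact.bn_le he hX1 _ (by omega))
    rw [h1, h2, hX.2, hZ.2]

variable (ht : TensorCompat t) (hc : Conservative R) (he : TExact t R) (hu : Hrt t (𝟙_ C))
  (hid : ∀ e : 𝟙_ C ⟶ 𝟙_ C, e ≫ e = e → e = 0 ∨ e = 𝟙 _)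

include ht he hu hid

lemma Good.sub_quot {X Y Z : C} {f : X ⟶ Y} {g : Y ⟶ Z} {h : Z ⟶ X⟦(1 : ℤ)⟧}
    (hT : Triangle.mk f g h ∈ distTriang C) {b : ℤ} (hX1 : t.IsLE X b) (hX2 : t.IsGE X b)
    (hZ1 : t.IsLE Z b) (hZ2 : t.IsGE Z b) (hY : Good R R' b Y) :
    Good R R' b X ∧ Good R R' b Z := by
  have h1 := coh_dom (R' := R') ht he hu hid hX1 hX2
  have h2 := coh_dom (R' := R') ht he hu hid hZ1 hZ2
  have h3 := bn_tri_eq (R := R) hT b (TExact.bn_ge he hZ2 _ (by omega))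
    (TExact.bn_le he hX1 _ (by omega))
  have h4 := bn_tri_le (R := R') hT b
  rw [hY.2] at h4
  have h5 : ∀ (W : C) (n : ℤ), n ≠ b → tot R' W ≤ bn R' W b → bn R' W n = 0 := by
    intro W n hn hW
    have h6 : ∑ i ∈ {n, b}, bn R' W i ≤ tot R' W := by
      rw [tot_eq W ((bn_support_finite (R := R') W).toFinset ∪ {n, b})]
      · exact Finset.sum_le_sum_of_subset Finset.subset_union_right
      · intro i hi
        by_contra h
        exact hi (Finset.mem_union_left _ ((bn_support_finite (R := R') W).mem_toFinset.2 h))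
    rw [Finset.sum_pair hn] at h6
    omega
  have h7 := bn_le_tot (R := R') X b
  have h8 := bn_le_tot (R := R') Z b
  exact ⟨⟨fun n hn => h5 X n hn (by omega), by omega⟩, ⟨fun n hn => h5 Z n hn (by omega), by omega⟩⟩

/-- Good objects are stable under direct summands. -/
lemma Good.retract {X Y : C} {b : ℤ} (i : X ⟶ Y) (r : Y ⟶ X) (hir : i ≫ r = 𝟙 _)
    (hY1 : t.IsLE Y b) (hY2 : t.IsGE Y b) (hY : Good R R' b Y) : Good R R' b X := by
  obtain ⟨Z, g, h, hT⟩ := distinguished_cocone_triangle i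
  have h1 : h = 0 := by
    have h2 := comp31 hT
    have h3 : (i⟦(1 : ℤ)⟧') ≫ (r⟦(1 : ℤ)⟧') = 𝟙 _ := by
      rw [← Functor.map_comp, hir, CategoryTheory.Functor.map_id]
    calc h = h ≫ (i⟦(1 : ℤ)⟧') ≫ (r⟦(1 : ℤ)⟧') := by rw [h3, Category.comp_id]
      _ = 0 := by rw [← Category.assoc, h2, zero_comp]
  obtain ⟨s, hs⟩ := split3' hT h1
  exact (Good.sub_quot ht he hu hid hT (isLE_retract hY1 i r hir) (isGE_retract hY2 i r hir)
    (isLE_retract hY1 s g hs) (isGE_retract hY2 s g hs) hY).1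

end

end Pool.Agent.Helper812_MT
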