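import Pool.Agent.Helper812_MT.Betti

/-!
# The total Betti numbers of an object of the heart for two realisations
-/

set_option autoImplicit false
set_option linter.unusedSectionVars false
set_option linter.unusedSimpArgs false
set_option backward.isDefEq.respectTransparency false
set_option backward.defeqAttrib.useBackward true

open CategoryTheory Limits MonoidalCategory TensorProduct Pretriangulated Triangulated

namespace Pool.Agent.Helper812_MT

open Pool.Agent.Y116.MT Pool.Agent.V1178.MT

universe v u w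

open Functor.LaxMonoidal

lemma le_of_pow_bound (D d K : ℕ) (h : ∀ n : ℕ, D ^ n ≤ (2 * (n * K) + 1) * d ^ n) : D ≤ d := by
  by_contra hlt
  rw [not_le] at hlt
  rcases Nat.eq_zero_or_pos d with rfl | hd
  · have := h 1
    simp at this
    omega
  have hr : 1 < (D : ℝ) / d := by
    rw [lt_div_iff₀ (by exact_mod_cast hd), one_mul]
    exact_mod_cast hlt
  have h1 := tendsto_pow_const_div_const_pow_of_one_lt 1 hr
  have h0 := tendsto_pow_const_div_const_pow_of_one_lt 0 hr
  have h2 := ((h1.const_mul (2 * (K : ℝ))).add h0)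
  simp only [mul_zero, zero_add] at h2
  have h3 := h2.eventually (gt_mem_nhds (show (0 : ℝ) < 1 by norm_num))
  obtain ⟨n, hn⟩ := h3.exists
  have h4 : ((D : ℝ) / d) ^ n ≤ 2 * (n * K) + 1 := by
    rw [div_pow, div_le_iff₀ (by positivity)]
    exact_mod_cast h n
  have h5 : 0 < ((D : ℝ) / d) ^ n := by positivity
  have h6 : 2 * (K : ℝ) * ((n : ℝ) ^ 1 / ((D : ℝ) / d) ^ n) + (n : ℝ) ^ 0 / ((D : ℝ) / d) ^ n =
      (2 * (n * K) + 1) / ((D : ℝ) / d) ^ n := by
    field_simp
  rw [h6, div_lt_one h5] at hn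
  linarith

section

variable {C : Type u} [Category.{v} C] [Preadditive C] [HasZeroObject C] [HasShift C ℤ]
  [∀ n : ℤ, (shiftFunctor C n).Additive] [Pretriangulated C] [MonoidalCategory C]
  [SymmetricCategory C] [TensorTriangulated C] {E : Type w} [Field E] {R : Realisation C E}

lemma tot_deg {X : C} {a : ℤ} (h : R.Deg X a) : tot R X = bn R X a := by
  rw [tot_eq X {a}]
  · simp
  · intro i hi
    rw [bn_eq_zero_iff]
    exact h i (by simpa using hi)

lemma tot_unit : tot R (𝟙_ C) = 1 := by
  rw [tot_deg deg_unit, bn_zero']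
  have h1 := LinearEquiv.finrank_eq (asIso (Functor.LaxMonoidal.ε R.H)).toLinearEquiv
  rw [← h1]
  exact Module.finrank_self E

lemma tot_pow (X : C) (n : ℕ) : tot R (pow X n) = tot R X ^ n := by
  induction n with
  | zero => exact tot_unit
  | succ n ih => rw [pow, tot_tensor, ih, pow_succ, mul_comm]

lemma bn_pow_zero {X : C} {N : ℕ} (hN : ∀ i : ℤ, N < i.natAbs → bn R X i = 0) (n : ℕ) :
    ∀ i : ℤ, n * N < i.natAbs → bn R (pow X n) i = 0 := by
  induction n with
  | zero =>
    intro i hi
    rw [bn_eq_zero_iff]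
    exact deg_unit i (by
      rintro rfl
      simp at hi)
  | succ n ih =>
    intro i hi
    rw [pow, bn_tensor X (pow X n) i (Finset.Icc (-(N : ℤ)) N)]
    · refine Finset.sum_eq_zero fun j hj => ?_
      rw [Finset.mem_Icc] at hj
      rw [ih (i - j), mul_zero]
      have : (n + 1) * N = n * N + N := by ring
      omega
    · intro j hj
      apply hN
      simp only [Finset.mem_Icc, not_and_or, not_le] at hj
      omega

end

section

variable {C : Type u} [Category.{v} C] [Preadditive C] [HasZeroObject C] [HasShift C ℤ]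
  [∀ n : ℤ, (shiftFunctor C n).Additive] [Pretriangulated C] [MonoidalCategory C]
  [SymmetricCategory C] [TensorTriangulated C] [MonoidalPreadditive C] [RightRigidCategory C]
  [IsTriangulated C] {E E' : Type w} [Field E] [Field E'] {R : Realisation C E}
  {R' : Realisation C E'} {t : TStructure C} (ht : TensorCompat t) (he : TExact t R)
  (hu : Hrt t (𝟙_ C)) (hid : ∀ e : 𝟙_ C ⟶ 𝟙_ C, e ≫ e = e → e = 0 ∨ e = 𝟙 _)

include ht he hu hid

/-- The antisymmetrizer vanishes for large `n` on an object of the heart. -/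
lemma alt_heart {Z : C} (hZ : Hrt t Z) : alt (𝟙_ C) Z (tot R Z + 1) = 0 := by
  have h0 := fun n => pw_hrt ht hu hZ n
  have h2 : tot R Z = Module.finrank E (R.H.obj Z) := by rw [tot_deg (he.deg hZ), bn_zero']
  apply faithful_heart ht he hu hid (h0 _) (h0 _)
  have h1 := kap_iso (fun n => he.deg (h0 n)) (tot R Z + 1)
  rw [← cancel_epi (kap R.H (𝟙_ C) Z (tot R Z + 1)), ← alt_lax,
    alt_vec_zero _ _ _ (by rw [h2]; exact Nat.lt_succ_self _), zero_comp, comp_zero]

lemma heart_even {Z : C} (hZ : Hrt t Z) (c : ℤ) : bn R' Z (c + c) ≤ tot R Z :=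
  Nat.lt_succ_iff.1 (finrank_even R' (alt_heart ht he hu hid hZ) (not_isZero_H_unit R') c)

lemma heart_bn {Z : C} (hZ : Hrt t Z) (c : ℤ) : bn R' Z c ≤ tot R Z := by
  have h1 := bn_mul_le (R := R') Z Z c c (c + c) rfl
  have h2 := heart_even (R' := R') ht he hu hid (ht.hrt hZ hZ) c
  rw [tot_tensor] at h2
  exact Nat.mul_self_le_mul_self_iff.1 (h1.trans h2)

lemma pow_hrt {Z : C} (hZ : Hrt t Z) (n : ℕ) : Hrt t (pow Z n) := by
  induction n with
  | zero => exact hu
  | succ n ih => exact ht.hrt hZ ih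

/-- The total Betti number of an object of the heart is largest for the t-exact realisation. -/
theorem heart_dom {Z : C} (hZ : Hrt t Z) : tot R' Z ≤ tot R Z := by
  obtain ⟨N, hN⟩ := R'.bounded Z
  have hN' : ∀ i : ℤ, N < i.natAbs → bn R' Z i = 0 := fun i hi => bn_eq_zero_iff.2 (hN i hi)
  refine le_of_pow_bound _ _ N fun n => ?_
  rw [← tot_pow (R := R'), ← tot_pow (R := R)]
  rw [tot_eq (R := R') (pow Z n) (Finset.Icc (-((n * N : ℕ) : ℤ)) ((n * N : ℕ) : ℤ))]
  · refine (Finset.sum_le_card_nsmul _ _ (tot R (pow Z n)) fun i _ =>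
      heart_bn ht he hu hid (pow_hrt ht he hu hid hZ n) i).trans ?_
    rw [smul_eq_mul]
    refine Nat.mul_le_mul_right _ ?_
    rw [Int.card_Icc]
    push_cast
    omega
  · intro i hi
    apply bn_pow_zero hN'
    simp only [Finset.mem_Icc, not_and_or, not_le] at hi
    omega

end

end Pool.Agent.Helper812_MT
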