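import Pool.Agent.Helper812_MT.Twist

/-!
# The dimension of the even cohomology of an object with vanishing antisymmetrizer
-/

set_option autoImplicit false
set_option linter.unusedSectionVars false
set_option linter.unusedSimpArgs false
set_option backward.isDefEq.respectTransparency false
set_option backward.defeqAttrib.useBackward true

open CategoryTheory Limits MonoidalCategory TensorProduct Pretriangulated Triangulated

namespace Pool.Agent.Helper812_MT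

open Pool.Agent.Y116.MT

universe v u w

section Vec

variable {E : Type w} [Field E] (X V : ModuleCat.{w} E)

/-- The antisymmetrizer on pure tensors. -/
lemma alt_succ_ten (x : X) (n : ℕ) (v : Fin (n + 1) → V) :
    (alt X V (n + 1)) (ten X V x (n + 1) v) = ∑ i : Fin (n + 1), ((-1 : ℤ) ^ (n + i.val)) •
      (((alt X V n) (ten X V x n (i.removeNth v))) ⊗ₜ[E] (v i) :
        (pw X V n ⊗ V : ModuleCat.{w} E)) := by
  have h1 : (alt X V (n + 1)) (ten X V x (n + 1) v) =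
    ∑ i : Fin (n + 1), ((-1 : ℤ) ^ (n + i.val)) •
      ((alt X V n ▷ V) ((mv X V n i) (ten X V x (n + 1) v))) := by
    have h3 := ModuleCat.hom_sum (fun i : Fin (n + 1) =>
      ((-1 : ℤ) ^ (n + i.val)) • (mv X V n i ≫ (alt X V n ▷ V))) Finset.univ
    exact (LinearMap.congr_fun h3 _).trans (by rw [LinearMap.sum_apply]; rfl)
  rw [h1]
  refine Finset.sum_congr rfl (fun i _ => ?_)
  rw [mv_apply]
  rfl

/-- A product of functionals. -/
noncomputable def phi (ξ : X →ₗ[E] E) (φ : ℕ → (V →ₗ[E] E)) :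
    ∀ n : ℕ, (pw X V n : ModuleCat.{w} E) →ₗ[E] E
  | 0 => ξ
  | n + 1 => LinearMap.mul' E E ∘ₗ TensorProduct.map (phi ξ φ n) (φ n)

lemma phi_tmul (ξ : X →ₗ[E] E) (φ : ℕ → (V →ₗ[E] E)) (n : ℕ) (a : (pw X V n : ModuleCat.{w} E))
    (b : V) : phi X V ξ φ (n + 1) (a ⊗ₜ[E] b : (pw X V n ⊗ V : ModuleCat.{w} E)) =
      phi X V ξ φ n a * φ n b := by
  change (LinearMap.mul' E E ∘ₗ TensorProduct.map (phi X V ξ φ n) (φ n)) (a ⊗ₜ[E] b) = _
  simp

lemma phi_alt (ξ : X →ₗ[E] E) (φ : ℕ → (V →ₗ[E] E)) (x : X) (n : ℕ) : ∀ v : Fin n → V,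
    (∀ i j : Fin n, φ j (v i) = if i = j then 1 else 0) →
    phi X V ξ φ n ((alt X V n) (ten X V x n v)) = ξ x := by
  induction n with
  | zero =>
    intro v _
    rfl
  | succ n ih =>
    intro v hv
    rw [alt_succ_ten, map_sum, Finset.sum_eq_single (Fin.last n)]
    · rw [map_zsmul, phi_tmul]
      have h1 : φ n (v (Fin.last n)) = 1 := by simpa using hv (Fin.last n) (Fin.last n)
      have h2 := ih ((Fin.last n).removeNth v) (by
        intro i j
        rw [Fin.removeNth_last]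
        have := hv i.castSucc j.castSucc
        simpa [Fin.init, Fin.castSucc_inj] using this)
      rw [h1, h2, Fin.val_last, Even.neg_one_pow ⟨n, rfl⟩]
      simp
    · intro i _ hi
      rw [map_zsmul, phi_tmul]
      have h1 : φ n (v i) = 0 := by
        have := hv i (Fin.last n)
        simpa [hi] using this
      rw [h1, mul_zero, smul_zero]
    · intro h
      exact absurd (Finset.mem_univ _) h

/-- If the antisymmetrizer vanishes, the dimension is small. -/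
theorem finrank_lt_of_alt [Module.Finite E V] {n : ℕ} (h : alt X V n = 0) (hX : ¬ IsZero X) :
    Module.finrank E V < n := by
  by_contra hn
  rw [not_lt] at hn
  rw [ModuleCat.isZero_iff_subsingleton, not_subsingleton_iff_nontrivial] at hX
  obtain ⟨x, hx⟩ := exists_ne (0 : X)
  obtain ⟨ξ, hξ⟩ : ∃ ξ : Module.Dual E X, ξ x ≠ 0 := by
    by_contra hcon
    push Not at hcon
    exact hx ((Module.forall_dual_apply_eq_zero_iff E x).1 hcon)
  let b := Module.finBasis E V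
  let v : Fin n → V := fun i => b (Fin.castLE hn i)
  let φ : ℕ → (V →ₗ[E] E) := fun j => if h : j < n then b.coord ⟨j, lt_of_lt_of_le h hn⟩ else 0
  have h1 := phi_alt X V ξ φ x n v (by
    intro i j
    simp only [φ, v, j.isLt, dite_true, Module.Basis.coord_apply, Module.Basis.repr_self]
    rw [Finsupp.single_apply]
    simp only [Fin.ext_iff, Fin.val_castLE])
  apply hξ
  rw [← h1, h]
  simp

end Vec

section

open Functor.LaxMonoidal

variable {C : Type u} [Category.{v} C] [Preadditive C] [HasZeroObject C] [HasShift C ℤ]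
  [∀ n : ℤ, (shiftFunctor C n).Additive] [Pretriangulated C] [MonoidalCategory C]
  [SymmetricCategory C] [TensorTriangulated C] {E : Type w} [Field E] (R : Realisation C E)

lemma mono_mu_shift (X Y : C) (i : ℤ) : Mono (μ R.H (X⟦i⟧) (Y⟦-i⟧)) := by
  have h2 : Mono (μ R.H (X⟦i⟧) (Y⟦-i⟧) ≫ R.H.map (shiftTensorIso X Y i).hom) := by
    rw [ModuleCat.mono_iff_injective]
    intro a b hab
    have h3 := (R.kunneth X Y).1
    have h4 : ∀ c, (kunnethMap R.H X Y) (DirectSum.lof E ℤ (fun i : ℤ =>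
        (R.H.obj (X⟦i⟧) ⊗ R.H.obj (Y⟦-i⟧) : ModuleCat.{w} E)) i c) =
        (μ R.H (X⟦i⟧) (Y⟦-i⟧) ≫ R.H.map (shiftTensorIso X Y i).hom) c := by
      intro c
      simp [kunnethMap]
    exact DirectSum.of_injective (β := fun i : ℤ =>
      (R.H.obj (X⟦i⟧) ⊗ R.H.obj (Y⟦-i⟧) : ModuleCat.{w} E)) i (h3 (by
        have h5 := (h4 a).trans (hab.trans (h4 b).symm)
        exact h5))
  exact mono_of_mono _ (R.H.map (shiftTensorIso X Y i).hom)

/-- The Künneth maps are monomorphisms. -/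
lemma mono_mu (X Y : C) : Mono (μ R.H X Y) := by
  have h1 := mono_mu_shift R X Y 0
  let e : X⟦(0 : ℤ)⟧ ≅ X := (shiftFunctorZero C ℤ).app X
  let f : Y⟦-(0 : ℤ)⟧ ≅ Y := (shiftFunctorZero' C (-0 : ℤ) (by simp)).app Y
  have h : μ R.H (X⟦(0 : ℤ)⟧) (Y⟦-(0 : ℤ)⟧) ≫ R.H.map (e.hom ⊗ₘ f.hom) =
      (R.H.map e.hom ⊗ₘ R.H.map f.hom) ≫ μ R.H X Y := (μ_natural R.H e.hom f.hom).symm
  have h2 : μ R.H X Y = inv (R.H.map e.hom ⊗ₘ R.H.map f.hom) ≫
      μ R.H (X⟦(0 : ℤ)⟧) (Y⟦-(0 : ℤ)⟧) ≫ R.H.map (e.hom ⊗ₘ f.hom) := by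
    rw [h, IsIso.inv_hom_id_assoc]
  rw [h2]
  infer_instance

lemma mono_whisker {M N : ModuleCat.{w} E} (f : M ⟶ N) [Mono f] (W : ModuleCat.{w} E) :
    Mono (f ▷ W) := by
  rw [ModuleCat.mono_iff_injective]
  exact Module.Flat.rTensor_preserves_injective_linearMap (M := W) f.hom
    ((ModuleCat.mono_iff_injective f).1 inferInstance)

lemma mono_kap (X Z : C) (n : ℕ) : Mono (kap R.H X Z n) := by
  induction n with
  | zero => simp only [kap]; infer_instance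
  | succ n ih =>
    simp only [kap]
    have h1 := mono_whisker (kap R.H X Z n) (R.H.obj Z)
    have h2 := mono_mu R (pw X Z n) Z
    exact mono_comp _ _

variable [MonoidalPreadditive C]

/-- The dimension of the cohomology of an object with vanishing antisymmetrizer. -/
theorem finrank_lt {X Z : C} {n : ℕ} (h : alt X Z n = 0) (hX : ¬ IsZero (R.H.obj X)) :
    Module.finrank E (R.H.obj Z) < n := by
  refine finrank_lt_of_alt (R.H.obj X) (R.H.obj Z) ?_ hX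
  have h1 := mono_kap R X Z n
  rw [← cancel_mono (kap R.H X Z n), alt_lax, h, Functor.map_zero, comp_zero, zero_comp]

/-- Tensoring with a shift of the unit. -/
noncomputable def tensorUnitShift (X : C) (a : ℤ) : X ⊗ (𝟙_ C)⟦a⟧ ≅ X⟦a⟧ :=
  rShift X (𝟙_ C) a ≪≫ (shiftFunctor C a).mapIso (ρ_ X)

/-- Tensoring twice with a shift of the unit. -/
noncomputable def tensorUnitShiftTwice (X : C) (a : ℤ) :
    X ⊗ ((𝟙_ C)⟦a⟧ ⊗ (𝟙_ C)⟦a⟧) ≅ X⟦a + a⟧ :=
  (α_ _ _ _).symm ≪≫ whiskerRightIso (tensorUnitShift X a) _ ≪≫ tensorUnitShift (X⟦a⟧) a ≪≫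
    ((shiftFunctorAdd C a a).app X).symm

lemma braid_minus : (β_ ((𝟙_ C)⟦(-1 : ℤ)⟧) ((𝟙_ C)⟦(-1 : ℤ)⟧)).hom = -𝟙 _ :=
  braid_inverse (T' := (𝟙_ C)⟦(1 : ℤ)⟧)
    (tensorUnitShift ((𝟙_ C)⟦(-1 : ℤ)⟧) 1 ≪≫ shiftNegShift (𝟙_ C) 1)
    TensorTriangulated.sign

lemma alt_shift {ε : ℤ} (hε : (β_ ((𝟙_ C)⟦ε⟧) ((𝟙_ C)⟦ε⟧)).hom = -𝟙 _) {X Z : C} {n : ℕ}
    (h : alt X Z n = 0) (hX : ¬ IsZero (R.H.obj X)) (c : ℕ) :
    ∃ X' Z' : C, alt X' Z' n = 0 ∧ ¬ IsZero (R.H.obj X') ∧ Nonempty (Z' ≅ Z⟦(c : ℤ) * (ε + ε)⟧) := by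
  induction c with
  | zero =>
    exact ⟨X, Z, h, hX, ⟨((shiftFunctorZero' C (((0 : ℕ) : ℤ) * (ε + ε)) (by simp)).app Z).symm⟩⟩
  | succ c ih =>
    obtain ⟨X', Z', h1, h2, ⟨e⟩⟩ := ih
    refine ⟨X' ⊗ 𝟙_ C, Z' ⊗ ((𝟙_ C)⟦ε⟧ ⊗ (𝟙_ C)⟦ε⟧), alt_twist (braid_square hε) h1 _,
      fun h3 => h2 (h3.of_iso (R.H.mapIso (ρ_ X').symm)), ⟨?_⟩⟩
    exact tensorUnitShiftTwice Z' ε ≪≫ (shiftFunctor C (ε + ε)).mapIso e ≪≫
      ((shiftFunctorAdd' C ((c : ℤ) * (ε + ε)) (ε + ε) (((c + 1 : ℕ) : ℤ) * (ε + ε))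
        (by push_cast; ring)).app Z).symm

/-- The dimensions of the cohomology in even degrees. -/
theorem finrank_even {X Z : C} {n : ℕ} (h : alt X Z n = 0) (hX : ¬ IsZero (R.H.obj X)) (c : ℤ) :
    Module.finrank E (R.H.obj (Z⟦c + c⟧)) < n := by
  rcases Int.le_total 0 c with hc | hc
  · obtain ⟨k, rfl⟩ := Int.eq_ofNat_of_zero_le hc
    obtain ⟨X', Z', h1, h2, ⟨e⟩⟩ := alt_shift R TensorTriangulated.sign h hX k
    have h3 := finrank_lt R h1 h2
    have e' : Z' ≅ Z⟦(k : ℤ) + k⟧ := e ≪≫ eqToIso (by rw [show (k : ℤ) * (1 + 1) = k + k by ring])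
    rwa [LinearEquiv.finrank_eq (R.H.mapIso e').toLinearEquiv] at h3
  · obtain ⟨k, hk⟩ := Int.eq_ofNat_of_zero_le (Int.neg_nonneg_of_nonpos hc)
    obtain ⟨X', Z', h1, h2, ⟨e⟩⟩ := alt_shift R braid_minus h hX k
    have h3 := finrank_lt R h1 h2
    have e' : Z' ≅ Z⟦c + c⟧ := e ≪≫ eqToIso (by
      rw [show (k : ℤ) * (-1 + -1) = c + c by rw [← hk]; ring])
    rwa [LinearEquiv.finrank_eq (R.H.mapIso e').toLinearEquiv] at h3

end

end Pool.Agent.Helper812_MT
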