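import Mathlib

/-!
# A symmetric transport plan with equal marginals is the identity
-/

set_option autoImplicit false

namespace Pool.Agent.Helper812_MT

/-- A second moment argument: a transport plan `W` from `β` to itself whose error distribution is
symmetric around `e` is concentrated on the diagonal. -/
theorem moment (β : ℤ → ℕ) (W : ℤ → ℤ → ℕ) (e : ℤ) (N : ℕ)
    (h0 : ∀ b n, n ∉ Finset.Icc (e - N) (e + N) → W b n = 0)
    (h0' : ∀ b n, b ∉ Finset.Icc (e - N) (e + N) → W b n = 0)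
    (hβ : ∀ n, n ∉ Finset.Icc (e - N) (e + N) → β n = 0)
    (h1 : ∀ n, β n ≤ ∑ b ∈ Finset.Icc (e - N) (e + N), W b n)
    (h2 : ∀ b, ∑ n ∈ Finset.Icc (e - N) (e + N), W b n ≤ β b)
    (h3 : ∀ (k : ℕ) (a : ℤ), W (e - k) (e - k + a) = W (e + k) (e + k + a)) :
    ∀ b, (∀ n, n ≠ b → W b n = 0) ∧ W b b = β b := by
  set S := Finset.Icc (e - N) (e + N) with hS
  have hA1 : ∑ n ∈ S, β n ≤ ∑ n ∈ S, ∑ b ∈ S, W b n := Finset.sum_le_sum fun n _ => h1 n
  have hA2 : ∑ b ∈ S, ∑ n ∈ S, W b n ≤ ∑ b ∈ S, β b := Finset.sum_le_sum fun b _ => h2 b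
  have hA3 : ∑ n ∈ S, ∑ b ∈ S, W b n = ∑ b ∈ S, ∑ n ∈ S, W b n := Finset.sum_comm
  have hB1 : ∀ n ∈ S, β n = ∑ b ∈ S, W b n :=
    (Finset.sum_eq_sum_iff_of_le fun n _ => h1 n).1 (by omega)
  have hB2 : ∀ b ∈ S, ∑ n ∈ S, W b n = β b :=
    (Finset.sum_eq_sum_iff_of_le fun b _ => h2 b).1 (by omega)
  have hC1 : ∑ n ∈ S, (β n : ℤ) * (n - e) ^ 2 = ∑ b ∈ S, ∑ n ∈ S, (W b n : ℤ) * (n - e) ^ 2 := by
    rw [Finset.sum_comm]
    refine Finset.sum_congr rfl fun n hn => ?_
    rw [hB1 n hn]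
    push_cast
    rw [Finset.sum_mul]
  have hC2 : ∑ b ∈ S, (β b : ℤ) * (b - e) ^ 2 = ∑ b ∈ S, ∑ n ∈ S, (W b n : ℤ) * (b - e) ^ 2 := by
    refine Finset.sum_congr rfl fun b hb => ?_
    rw [← hB2 b hb]
    push_cast
    rw [Finset.sum_mul]
  let F : ℤ → ℤ := fun b => ∑ n ∈ S, (W b n : ℤ) * (n - b)
  have hF : ∀ b, F b = ∑ᶠ a : ℤ, (W b (b + a) : ℤ) * a := by
    intro b
    have h4 : F b = ∑ᶠ n : ℤ, (W b n : ℤ) * (n - b) := by
      refine (finsum_eq_sum_of_support_subset _ fun n hn => ?_).symm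
      by_contra h
      apply hn
      change (W b n : ℤ) * (n - b) = 0
      rw [h0 b n (by simpa using h)]
      simp
    rw [h4, ← finsum_comp_equiv (Equiv.addLeft b)]
    refine finsum_congr fun a => ?_
    simp
  have hF2 : ∀ b, F (2 * e - b) = F b := by
    intro b
    rw [hF, hF]
    refine finsum_congr fun a => ?_
    rcases le_total b e with hb | hb
    · obtain ⟨k, hk⟩ := Int.eq_ofNat_of_zero_le (sub_nonneg.2 hb)
      have h4 := h3 k a
      rw [show e - (k : ℤ) = b by rw [← hk]; ring, show e + (k : ℤ) = 2 * e - b by rw [← hk]; ring]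
        at h4
      rw [h4]
    · obtain ⟨k, hk⟩ := Int.eq_ofNat_of_zero_le (sub_nonneg.2 hb)
      have h4 := h3 k a
      rw [show e - (k : ℤ) = 2 * e - b by rw [← hk]; ring, show e + (k : ℤ) = b by rw [← hk]; ring]
        at h4
      rw [h4]
  have hD : ∑ b ∈ S, F b * (b - e) = 0 := by
    have h4 : ∑ b ∈ S, F b * (b - e) = ∑ b ∈ S, -(F b * (b - e)) := by
      refine Finset.sum_nbij' (fun b => 2 * e - b) (fun b => 2 * e - b) ?_ ?_ ?_ ?_ ?_
      · intro b hb
        simp only [hS, Finset.mem_Icc] at hb ⊢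
        omega
      · intro b hb
        simp only [hS, Finset.mem_Icc] at hb ⊢
        omega
      · intro b _
        ring
      · intro b _
        ring
      · intro b _
        rw [hF2]
        ring
    rw [Finset.sum_neg_distrib] at h4
    omega
  have hE : ∑ b ∈ S, ∑ n ∈ S, (W b n : ℤ) * (n - b) ^ 2 = 0 := by
    have h4 : ∀ b ∈ S, ∑ n ∈ S, (W b n : ℤ) * (n - b) ^ 2 =
        ∑ n ∈ S, (W b n : ℤ) * (n - e) ^ 2 - ∑ n ∈ S, (W b n : ℤ) * (b - e) ^ 2 -
          2 * (F b * (b - e)) := by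
      intro b _
      simp only [F]
      rw [Finset.sum_mul, Finset.mul_sum, ← Finset.sum_sub_distrib, ← Finset.sum_sub_distrib]
      refine Finset.sum_congr rfl fun n _ => ?_
      ring
    rw [Finset.sum_congr rfl h4, Finset.sum_sub_distrib, Finset.sum_sub_distrib, ← Finset.mul_sum,
      hD, ← hC1, ← hC2]
    ring
  have hG : ∀ b ∈ S, ∀ n ∈ S, n ≠ b → W b n = 0 := by
    intro b hb n hn hnb
    have h4 := (Finset.sum_eq_zero_iff_of_nonneg fun b _ => Finset.sum_nonneg fun n _ => by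
      positivity).1 hE b hb
    have h5 := (Finset.sum_eq_zero_iff_of_nonneg fun n _ => by positivity).1 h4 n hn
    rcases mul_eq_zero.1 h5 with h6 | h6
    · exact_mod_cast h6
    · exfalso
      apply hnb
      have := pow_eq_zero_iff (n := 2) (by norm_num) |>.1 h6
      omega
  have hH : ∀ b, ∀ n, n ≠ b → W b n = 0 := by
    intro b n hnb
    by_cases hn : n ∈ S
    · by_cases hb : b ∈ S
      · exact hG b hb n hn hnb
      · exact h0' b n hb
    · exact h0 b n hn
  intro b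
  refine ⟨hH b, ?_⟩
  by_cases hb : b ∈ S
  · rw [← hB2 b hb, Finset.sum_eq_single b]
    · intro n _ hn
      exact hH b n hn
    · intro h
      exact absurd hb h
  · rw [hβ b hb, h0' b b hb]

end Pool.Agent.Helper812_MT
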