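import Pool.Agent.Helper812_MT.Prime

/-!
# The odd cohomology of the objects of the heart vanishes
-/

set_option autoImplicit false
set_option linter.unusedSectionVars false
set_option linter.unusedSimpArgs false
set_option backward.isDefEq.respectTransparency false
set_option backward.defeqAttrib.useBackward true

open CategoryTheory Limits MonoidalCategory TensorProduct Pretriangulated Triangulated

namespace Pool.Agent.Helper812_MT

open Pool.Agent.Y116.MT Pool.Agent.V1178.MT

universe v u w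

section

variable {C : Type u} [Category.{v} C] [MonoidalCategory C] [SymmetricCategory C]
  [Preadditive C]

/-- The (not normalised) symmetrizer. -/
def symm (X Z : C) : ∀ n : ℕ, (pw X Z n ⟶ pw X Z n)
  | 0 => 𝟙 _
  | n + 1 => ∑ i : Fin (n + 1), (mv X Z n i ≫ (symm X Z n ▷ Z))

variable [MonoidalPreadditive C]

/-- The exchange is minus the identity if the symmetry is. -/
lemma exch_neg {B S : C} (hS : (β_ S S).hom = -𝟙 _) : (exch B S S).hom = -𝟙 _ := by
  simp [exch, hS, wl_neg]

lemma mv_kk_neg {S : C} (hS : (β_ S S).hom = -𝟙 _) (X Y Z : C) (n : ℕ) : ∀ i : Fin (n + 1),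
    mv (X ⊗ Y) (Z ⊗ S) n i ≫ kk X Y Z S (n + 1) =
      ((-1 : ℤ) ^ (n + i.val)) • (kk X Y Z S (n + 1) ≫ (mv X Z n i ▷ pw Y S (n + 1))) := by
  induction n with
  | zero =>
    intro i
    obtain rfl : i = 0 := Subsingleton.elim (α := Fin 1) _ _
    simp [mv]
  | succ n ih =>
    intro i
    refine Fin.lastCases ?_ (fun j => ?_) i
    · rw [mv_last, mv_last, Fin.val_last, Even.neg_one_pow ⟨n + 1, rfl⟩]
      simp
    · rw [mv_castSucc, mv_castSucc]
      have h1 : kk X Y Z S (n + 1 + 1) = (kk X Y Z S n ▷ (Z ⊗ S) ▷ (Z ⊗ S)) ≫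
          (tensorμ (pw X Z n) (pw Y S n) Z S ▷ (Z ⊗ S)) ≫
            tensorμ (pw X Z n ⊗ Z) (pw Y S n ⊗ S) Z S := by
        simp [kk]
      have h2 : (exch (pw (X ⊗ Y) (Z ⊗ S) n) (Z ⊗ S) (Z ⊗ S)).hom ≫ kk X Y Z S (n + 1 + 1) =
          -(kk X Y Z S (n + 1 + 1) ≫ ((exch (pw X Z n) Z Z).hom ▷ pw Y S (n + 1 + 1))) := by
        rw [h1, ← Category.assoc, ← exch_natural_first, Category.assoc, exch_tensor, exch_neg hS,
          MonoidalCategory.tensorHom_def, wl_neg, MonoidalCategory.whiskerLeft_id,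
          Preadditive.comp_neg, Category.comp_id]
        simp only [Category.assoc, Preadditive.comp_neg]
      have h3 : (mv (X ⊗ Y) (Z ⊗ S) n j ▷ (Z ⊗ S)) ≫ kk X Y Z S (n + 1 + 1) =
          ((-1 : ℤ) ^ (n + j.val)) •
            (kk X Y Z S (n + 1 + 1) ≫ ((mv X Z n j ▷ Z) ▷ pw Y S (n + 1 + 1))) := by
        have h4 : kk X Y Z S (n + 1 + 1) = (kk X Y Z S (n + 1) ▷ (Z ⊗ S)) ≫
            tensorμ (pw X Z (n + 1)) (pw Y S (n + 1)) Z S := rfl
        have h5 := tensorμ_natural_left (mv X Z n j) (𝟙 (pw Y S (n + 1))) Z S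
        simp only [tensorHom_id, id_whiskerRight] at h5
        rw [h4, ← comp_whiskerRight_assoc, ih, wr_zsmul, comp_whiskerRight,
          Preadditive.zsmul_comp, Category.assoc, h5, Category.assoc]
      rw [comp_whiskerRight, Category.assoc, h2, Preadditive.comp_neg, ← Category.assoc, h3,
        Preadditive.zsmul_comp, Category.assoc, Fin.val_castSucc,
        show n + 1 + j.val = (n + j.val) + 1 by omega, pow_succ]
      simp

lemma symm_kk_neg {S : C} (hS : (β_ S S).hom = -𝟙 _) (X Y Z : C) (n : ℕ) :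
    symm (X ⊗ Y) (Z ⊗ S) n ≫ kk X Y Z S n = kk X Y Z S n ≫ (alt X Z n ▷ pw Y S n) := by
  induction n with
  | zero => simp [alt, symm, kk]
  | succ n ih =>
    have h0 : alt X Z (n + 1) ▷ pw Y S (n + 1) = ∑ i : Fin (n + 1), ((-1 : ℤ) ^ (n + i.val)) •
        ((mv X Z n i ▷ pw Y S (n + 1)) ≫ ((alt X Z n ▷ Z) ▷ pw Y S (n + 1))) := by
      have h1 := (tensorRight (pw Y S (n + 1))).map_sum (fun i : Fin (n + 1) =>
        ((-1 : ℤ) ^ (n + i.val)) • (mv X Z n i ≫ (alt X Z n ▷ Z))) Finset.univ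
      refine Eq.trans h1 (Finset.sum_congr rfl fun i _ => ?_)
      rw [Functor.map_zsmul, Functor.map_comp]
      rfl
    rw [h0]
    simp only [symm, Preadditive.sum_comp, Preadditive.comp_sum]
    refine Finset.sum_congr rfl (fun i _ => ?_)
    have h3 : (symm (X ⊗ Y) (Z ⊗ S) n ▷ (Z ⊗ S)) ≫ kk X Y Z S (n + 1) =
          kk X Y Z S (n + 1) ≫ ((alt X Z n ▷ Z) ▷ pw Y S (n + 1)) := by
        have h4 : kk X Y Z S (n + 1) = (kk X Y Z S n ▷ (Z ⊗ S)) ≫
            tensorμ (pw X Z n) (pw Y S n) Z S := rfl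
        have h5 := tensorμ_natural_left (alt X Z n) (𝟙 (pw Y S n)) Z S
        simp only [tensorHom_id, id_whiskerRight] at h5
        rw [h4, ← comp_whiskerRight_assoc, ih, comp_whiskerRight_assoc, h5, Category.assoc]
    rw [Category.assoc, h3, Preadditive.comp_zsmul, ← Category.assoc, mv_kk_neg hS,
      Preadditive.zsmul_comp, Category.assoc]

lemma symm_kk {S : C} (hS : (β_ S S).hom = 𝟙 _) (X Y Z : C) (n : ℕ) :
    symm (X ⊗ Y) (Z ⊗ S) n ≫ kk X Y Z S n = kk X Y Z S n ≫ (symm X Z n ▷ pw Y S n) := by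
  induction n with
  | zero => simp [symm, kk]
  | succ n ih =>
    have h0 : symm X Z (n + 1) ▷ pw Y S (n + 1) = ∑ i : Fin (n + 1),
        ((mv X Z n i ▷ pw Y S (n + 1)) ≫ ((symm X Z n ▷ Z) ▷ pw Y S (n + 1))) := by
      have h1 := (tensorRight (pw Y S (n + 1))).map_sum (fun i : Fin (n + 1) =>
        (mv X Z n i ≫ (symm X Z n ▷ Z))) Finset.univ
      refine Eq.trans h1 (Finset.sum_congr rfl fun i _ => ?_)
      rw [Functor.map_comp]
      rfl
    rw [h0]
    simp only [symm, Preadditive.sum_comp, Preadditive.comp_sum]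
    refine Finset.sum_congr rfl (fun i _ => ?_)
    have h3 : (symm (X ⊗ Y) (Z ⊗ S) n ▷ (Z ⊗ S)) ≫ kk X Y Z S (n + 1) =
          kk X Y Z S (n + 1) ≫ ((symm X Z n ▷ Z) ▷ pw Y S (n + 1)) := by
        have h4 : kk X Y Z S (n + 1) = (kk X Y Z S n ▷ (Z ⊗ S)) ≫
            tensorμ (pw X Z n) (pw Y S n) Z S := rfl
        have h5 := tensorμ_natural_left (symm X Z n) (𝟙 (pw Y S n)) Z S
        simp only [tensorHom_id, id_whiskerRight] at h5
        rw [h4, ← comp_whiskerRight_assoc, ih, comp_whiskerRight_assoc, h5, Category.assoc]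
    rw [Category.assoc, h3, ← Category.assoc, ← Category.assoc, mv_kk hS]

/-- The twist by an object with symmetry `-1` exchanges the symmetrizer and the antisymmetrizer. -/
lemma symm_twist_neg {S : C} (hS : (β_ S S).hom = -𝟙 _) {X Z : C} {n : ℕ} (h : alt X Z n = 0)
    (Y : C) : symm (X ⊗ Y) (Z ⊗ S) n = 0 := by
  have h1 : (0 : pw X Z n ⟶ pw X Z n) ▷ pw Y S n = 0 := (tensorRight (pw Y S n)).map_zero _ _
  rw [← cancel_mono (kk X Y Z S n), symm_kk_neg hS, h, h1, comp_zero, zero_comp]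

lemma symm_twist {S : C} (hS : (β_ S S).hom = 𝟙 _) {X Z : C} {n : ℕ} (h : symm X Z n = 0)
    (Y : C) : symm (X ⊗ Y) (Z ⊗ S) n = 0 := by
  have h1 : (0 : pw X Z n ⟶ pw X Z n) ▷ pw Y S n = 0 := (tensorRight (pw Y S n)).map_zero _ _
  rw [← cancel_mono (kk X Y Z S n), symm_kk hS, h, h1, comp_zero, zero_comp]

end

section Lax

open Functor.LaxMonoidal

universe v' u'

variable {C : Type u} [Category.{v} C] [MonoidalCategory C] [SymmetricCategory C]
  {D : Type u'} [Category.{v'} D] [MonoidalCategory D] [SymmetricCategory D]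
  (H : C ⥤ D) [H.LaxBraided] (X Z : C)
  [Preadditive C] [Preadditive D] [MonoidalPreadditive D] [H.Additive]

lemma symm_lax (n : ℕ) :
    symm (H.obj X) (H.obj Z) n ≫ kap H X Z n = kap H X Z n ≫ H.map (symm X Z n) := by
  induction n with
  | zero => simp [symm, kap]
  | succ n ih =>
    simp only [symm, Preadditive.sum_comp, Functor.map_sum, Preadditive.comp_sum]
    refine Finset.sum_congr rfl (fun i _ => ?_)
    rw [Functor.map_comp, ← Category.assoc (kap H X Z (n + 1)), ← mv_lax]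
    have h3 : (symm (H.obj X) (H.obj Z) n ▷ H.obj Z) ≫ kap H X Z (n + 1) =
          kap H X Z (n + 1) ≫ H.map (symm X Z n ▷ Z) := by
        have h4 : kap H X Z (n + 1) = (kap H X Z n ▷ H.obj Z) ≫
            μ H (pw X Z n) Z := rfl
        rw [h4, ← comp_whiskerRight_assoc, ih, comp_whiskerRight_assoc, μ_natural_left,
          Category.assoc]
    rw [Category.assoc, Category.assoc, h3]

end Lax

section Vec

variable {E : Type w} [Field E] (X V : ModuleCat.{w} E)

/-- The symmetrizer on the powers of a vector. -/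
lemma symm_ten (x : X) (v : V) (n : ℕ) :
    (symm X V n) (ten X V x n fun _ => v) = (n.factorial : E) • ten X V x n fun _ => v := by
  induction n with
  | zero => simp [symm]
  | succ n ih =>
    have h1 : (symm X V (n + 1)) (ten X V x (n + 1) fun _ => v) =
      ∑ i : Fin (n + 1), ((symm X V n ▷ V) ((mv X V n i) (ten X V x (n + 1) fun _ => v))) := by
      have h3 := ModuleCat.hom_sum (fun i : Fin (n + 1) => (mv X V n i ≫ (symm X V n ▷ V)))
        Finset.univ
      exact (LinearMap.congr_fun h3 _).trans (by rw [LinearMap.sum_apply]; rfl)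
    have h2 : ∀ i : Fin (n + 1), (symm X V n ▷ V) ((mv X V n i) (ten X V x (n + 1) fun _ => v)) =
        (n.factorial : E) • ten X V x (n + 1) fun _ => v := by
      intro i
      rw [mv_apply]
      have h4 : (symm X V n ▷ V) ((ten X V x n (i.removeNth fun _ => v)) ⊗ₜ[E] v) =
        (((symm X V n) (ten X V x n fun _ => v)) ⊗ₜ[E] v :
          (pw X V n ⊗ V : ModuleCat.{w} E)) := rfl
      rw [h4, ih, ← TensorProduct.smul_tmul']
      rfl
    rw [h1, Finset.sum_congr rfl fun i _ => h2 i, Finset.sum_const, Finset.card_univ,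
      Fintype.card_fin, ← Nat.cast_smul_eq_nsmul E, smul_smul, Nat.factorial_succ]
    push_cast
    rfl

/-- If the symmetrizer vanishes, in characteristic zero, the space vanishes. -/
theorem isZero_of_symm [CharZero E] {n : ℕ} (h : symm X V n = 0) (hX : ¬ IsZero X) :
    IsZero V := by
  rw [ModuleCat.isZero_iff_subsingleton]
  rw [ModuleCat.isZero_iff_subsingleton, not_subsingleton_iff_nontrivial] at hX
  by_contra hV
  rw [not_subsingleton_iff_nontrivial] at hV
  obtain ⟨x, hx⟩ := exists_ne (0 : X)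
  obtain ⟨v, hv⟩ := exists_ne (0 : V)
  have h1 := symm_ten X V x v n
  rw [h] at h1
  have h2 : (ten X V x n fun _ => v) = 0 := by
    have h3 : (n.factorial : E) ≠ 0 := by exact_mod_cast Nat.factorial_ne_zero n
    have h4 : (n.factorial : E) • (ten X V x n fun _ => v) = 0 := by
      rw [← h1]
      simp
    exact (smul_eq_zero.1 h4).resolve_left h3
  obtain ⟨ξ, hξ⟩ : ∃ ξ : Module.Dual E X, ξ x ≠ 0 := by
    by_contra hcon
    push Not at hcon
    exact hx ((Module.forall_dual_apply_eq_zero_iff E x).1 hcon)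
  obtain ⟨ψ, hψ⟩ : ∃ ψ : Module.Dual E V, ψ v ≠ 0 := by
    by_contra hcon
    push Not at hcon
    exact hv ((Module.forall_dual_apply_eq_zero_iff E v).1 hcon)
  have h3 : ∀ m : ℕ, phi X V ξ (fun _ => ψ) m (ten X V x m fun _ => v) = ξ x * ψ v ^ m := by
    intro m
    induction m with
    | zero =>
      rw [pow_zero, mul_one]
      rfl
    | succ m ih =>
      have h4 : (ten X V x (m + 1) fun _ => v) =
        ((ten X V x m fun _ => v) ⊗ₜ[E] v : (pw X V m ⊗ V : ModuleCat.{w} E)) := rfl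
      rw [h4, phi_tmul, ih, pow_succ, mul_assoc]
  have h4 := h3 n
  rw [h2, map_zero] at h4
  exact mul_ne_zero hξ (pow_ne_zero n hψ) h4.symm

end Vec

end Pool.Agent.Helper812_MT
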