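import Pool.Agent.Helper812_MT.Coh
import Pool.Agent.Helper812_MT.Moment

/-!
# Pure objects
-/

set_option autoImplicit false
set_option linter.unusedSectionVars false
set_option linter.unusedSimpArgs false
set_option backward.isDefEq.respectTransparency false
set_option backward.defeqAttrib.useBackward true

open CategoryTheory Limits MonoidalCategory TensorProduct Pretriangulated Triangulated

namespace Pool.Agent.Helper812_MT

open Pool.Agent.Y116.MT Pool.Agent.V1178.MT

universe v u w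

section

variable {C : Type u} [Category.{v} C] [Preadditive C] [HasZeroObject C] [HasShift C ℤ]
  [∀ n : ℤ, (shiftFunctor C n).Additive] [Pretriangulated C] [MonoidalCategory C]
  [SymmetricCategory C] [TensorTriangulated C] [IsTriangulated C] [MonoidalPreadditive C]
  [RightRigidCategory C]
  {E : Type w} [Field E] {R : Realisation C E} {t : TStructure C}

lemma coh_tensor_left (ht : TensorCompat t) {T : C} (h1 : t.IsLE T (-2)) (h2 : t.IsGE T (-2))
    (b : ℤ) (X : C) : Nonempty (coh t b (T ⊗ X) ≅ T ⊗ coh t (b + 2) X) := by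
  obtain ⟨⟨e1⟩, -⟩ := trunc_unique t (b := b + 1)
    (tensor_dist T (t.triangleLTGE_distinguished (b + 2 + 1) X))
    (by
      have h3 : t.IsLE ((t.truncLT (b + 2 + 1)).obj X) (b + 2) := inferInstance
      have h4 := ht.isLE h1 h3
      rwa [show -2 + (b + 2) = b + 1 - 1 by ring] at h4)
    (by
      have h3 : t.IsGE ((t.truncGE (b + 2 + 1)).obj X) (b + 2 + 1) := inferInstance
      have h4 := ht.isGE h2 h3
      rwa [show -2 + (b + 2 + 1) = b + 1 by ring] at h4)
  obtain ⟨-, ⟨e2⟩⟩ := trunc_unique t (b := b)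
    (tensor_dist T (t.triangleLTGE_distinguished (b + 2) ((t.truncLT (b + 2 + 1)).obj X)))
    (by
      have h3 : t.IsLE ((t.truncLT (b + 2)).obj ((t.truncLT (b + 2 + 1)).obj X)) (b + 2 - 1) :=
        inferInstance
      have h4 := ht.isLE h1 h3
      rwa [show -2 + (b + 2 - 1) = b - 1 by ring] at h4)
    (by
      have h3 : t.IsGE ((t.truncGE (b + 2)).obj ((t.truncLT (b + 2 + 1)).obj X)) (b + 2) :=
        inferInstance
      have h4 := ht.isGE h2 h3
      rwa [show -2 + (b + 2) = b by ring] at h4)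
  exact ⟨(t.truncGE b).mapIso e1 ≪≫ e2⟩

lemma coh_iso {X Y : C} (e : X ≅ Y) (b : ℤ) : Nonempty (coh t b X ≅ coh t b Y) :=
  ⟨(t.truncGELT b (b + 1)).mapIso e⟩

lemma coh_tensor (ht : TensorCompat t) {T : C} (h1 : t.IsLE T (-2)) (h2 : t.IsGE T (-2))
    (b : ℤ) (X : C) : Nonempty (coh t b (X ⊗ T) ≅ coh t (b + 2) X ⊗ T) := by
  obtain ⟨e1⟩ := coh_iso (t := t) (β_ X T) b
  obtain ⟨e2⟩ := coh_tensor_left ht h1 h2 b X
  exact ⟨e1 ≪≫ e2 ≪≫ β_ _ _⟩

lemma coh_twist (ht : TensorCompat t) {T : C} (h1 : t.IsLE T (-2)) (h2 : t.IsGE T (-2))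
    (X : C) (k : ℕ) : ∀ b c : ℤ, b + 2 * k = c → Nonempty (coh t b (twist T X k) ≅
      twist T (coh t c X) k) := by
  induction k with
  | zero =>
    intro b c hb
    obtain rfl : b = c := by simpa using hb
    exact ⟨Iso.refl _⟩
  | succ k ih =>
    intro b c hb
    obtain ⟨e1⟩ := coh_tensor ht h1 h2 b (twist T X k)
    obtain ⟨e2⟩ := ih (b + 2) c (by push_cast at hb; omega)
    exact ⟨e1 ≪≫ whiskerRightIso e2 T⟩

lemma tot_invertible {T T' : C} (e : T ⊗ T' ≅ 𝟙_ C) : tot R T = 1 := by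
  have h1 : tot R T * tot R T' = 1 := by rw [← tot_tensor, tot_iso e, tot_unit]
  exact Nat.eq_one_of_mul_eq_one_right h1

lemma bn_tensor_T {T : C} (h1 : R.Deg T (-2)) (h2 : tot R T = 1) (X : C) (n : ℤ) :
    bn R (X ⊗ T) n = bn R X (n + 2) := by
  rw [bn_iso (β_ X T), bn_tensor T X n {-2}]
  · rw [Finset.sum_singleton, ← tot_deg h1, h2, one_mul, sub_neg_eq_add]
  · intro i hi
    rw [bn_eq_zero_iff]
    exact h1 i (by simpa using hi)

lemma bn_twist {T : C} (h1 : R.Deg T (-2)) (h2 : tot R T = 1) (X : C) (k : ℕ) : ∀ n m : ℤ,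
    n + 2 * k = m → bn R (twist T X k) n = bn R X m := by
  induction k with
  | zero =>
    intro n m h
    obtain rfl : n = m := by simpa using h
    rfl
  | succ k ih =>
    intro n m h
    have h3 : bn R (twist T X (k + 1)) n = bn R (twist T X k) (n + 2) :=
      bn_tensor_T h1 h2 (twist T X k) n
    rw [h3]
    exact ih _ _ (by push_cast at h; omega)

variable {E' : Type w} [Field E'] {R' : Realisation C E'}

/-- The symmetry of the error distribution. -/
lemma lefschetz_symm (ht : TensorCompat t) (hc : Conservative R) (he : TExact t R) {T T' : C}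
    (eT : T ⊗ T' ≅ 𝟙_ C) (h1 : R.Deg T (-2)) (h2 : R'.Deg T (-2)) {Q : C} {e : ℤ} {k : ℕ}
    (L : Q ⟶ twist T Q k) (hL : IsIso (R.H.map (L⟦e - k⟧'))) (a : ℤ) :
    bn R' (coh t (e - k) Q) (e - k + a) = bn R' (coh t (e + k) Q) (e + k + a) := by
  have h3 : t.IsLE T (-2) := isLE_of hc he fun i hi => h1 i (by omega)
  have h4 : t.IsGE T (-2) := isGE_of hc he fun i hi => h1 i (by omega)
  have h5 := coh_isIso hc he L (e - k) hL
  obtain ⟨e1⟩ := coh_twist ht h3 h4 Q k (e - k) (e + k) (by ring)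
  have e2 : coh t (e - k) Q ≅ twist T (coh t (e + k) Q) k :=
    (asIso ((t.truncGELT (e - k) (e - k + 1)).map L)) ≪≫ e1
  rw [bn_iso e2, bn_twist h2 (tot_invertible eT) _ _ _ (e + k + a) (by ring)]

/-- An object in degree `b` is good if its second realisation is in degree `b`, with the same
Betti number as the first realisation. -/
def Good (R : Realisation C E) (R' : Realisation C E') (b : ℤ) (X : C) : Prop :=
  (∀ n, n ≠ b → bn R' X n = 0) ∧ bn R' X b = bn R X b

lemma coh_dom (ht : TensorCompat t) (he : TExact t R) (hu : Hrt t (𝟙_ C))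
    (hid : ∀ e : 𝟙_ C ⟶ 𝟙_ C, e ≫ e = e → e = 0 ∨ e = 𝟙 _) {X : C} {b : ℤ} (h1 : t.IsLE X b)
    (h2 : t.IsGE X b) : tot R' X ≤ bn R X b := by
  have h3 : Hrt t (X⟦b⟧) := ⟨t.isLE_shift X b b 0, t.isGE_shift X b b 0⟩
  have h4 := heart_dom (R' := R') ht he hu hid h3
  rwa [tot_shift, tot_shift, tot_deg (TExact.deg' he h1 h2)] at h4

/-- The cohomology objects of a pure object are good. -/
theorem pure_good (ht : TensorCompat t) (hc : Conservative R) (he : TExact t R)
    (hu : Hrt t (𝟙_ C)) (hid : ∀ e : 𝟙_ C ⟶ 𝟙_ C, e ≫ e = e → e = 0 ∨ e = 𝟙 _) {T T' : C}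
    (eT : T ⊗ T' ≅ 𝟙_ C) (h1 : R.Deg T (-2)) (h2 : R'.Deg T (-2)) {Q : C}
    (hb : ∀ n, bn R' Q n = bn R Q n) {e : ℤ}
    (hL : ∀ k : ℕ, ∃ L : Q ⟶ twist T Q k, IsIso (R.H.map (L⟦e - k⟧'))) (b : ℤ) :
    Good R R' b (coh t b Q) := by
  obtain ⟨N, hN⟩ := R.bounded Q
  have g1 : t.IsLE Q N := isLE_of hc he fun i hi => hN i (by omega)
  have g2 : t.IsGE Q (-N) := isGE_of hc he fun i hi => hN i (by omega)
  -- a bound for the second realisation of the finitely many cohomology objects
  obtain ⟨M, hM⟩ : ∃ M : ℕ, ∀ b : ℤ, ∀ n : ℤ, M < n.natAbs → bn R' (coh t b Q) n = 0 := by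
    choose B hB using fun b : ℤ => R'.bounded (coh t b Q)
    refine ⟨∑ b ∈ Finset.Icc (-(N : ℤ)) N, B b, fun b n hn => ?_⟩
    by_cases hb : b ∈ Finset.Icc (-(N : ℤ)) N
    · have h3 : B b ≤ ∑ b ∈ Finset.Icc (-(N : ℤ)) N, B b :=
        Finset.single_le_sum (f := B) (fun _ _ => Nat.zero_le _) hb
      exact bn_eq_zero_iff.2 (hB b n (by omega))
    · apply bn_of_isZero
      simp only [Finset.mem_Icc, not_and_or, not_le] at hb
      rcases hb with hb | hb
      · exact coh_isZero_of_gt t g2 hb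
      · exact coh_isZero_of_lt t g1 hb
  have a1 := le_abs_self e
  have a2 := neg_le_abs e
  have key := moment (fun n => bn R Q n) (fun b n => bn R' (coh t b Q) n) e (N + M + e.natAbs)
    (fun b n hn => hM b n (by
      simp only [Finset.mem_Icc, not_and_or, not_le] at hn
      push_cast at hn
      omega))
    (fun b n hb => by
      simp only [Finset.mem_Icc, not_and_or, not_le] at hb
      push_cast at hb
      apply bn_of_isZero
      rcases hb with hb | hb
      · exact coh_isZero_of_gt t g2 (by omega)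
      · exact coh_isZero_of_lt t g1 (by omega))
    (fun n hn => bn_eq_zero_iff.2 (hN n (by
      simp only [Finset.mem_Icc, not_and_or, not_le] at hn
      push_cast at hn
      omega)))
    (fun n => by
      rw [← hb n]
      exact bn_le_sum_coh g2 g1 n _ fun i hi1 hi2 => by
        rw [Finset.mem_Icc]
        push_cast
        omega)
    (fun b => by
      rw [← tot_eq (R := R') (coh t b Q), ← bn_coh he Q b]
      · exact coh_dom ht he hu hid (coh_isLE t b Q) (coh_isGE t b Q)
      · intro i hi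
        apply hM
        simp only [Finset.mem_Icc, not_and_or, not_le] at hi
        push_cast at hi
        omega)
    (fun k a => by
      obtain ⟨L, hL⟩ := hL k
      exact lefschetz_symm ht hc he eT h1 h2 L hL a)
  obtain ⟨k1, k2⟩ := key b
  exact ⟨k1, k2.trans (bn_coh he Q b).symm⟩

end

end Pool.Agent.Helper812_MT
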