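import Pool.Agent.Helper812_MT.Close

/-!
# The objects with good cohomology objects form a thick subcategory
-/

set_option autoImplicit false
set_option linter.unusedSectionVars false
set_option linter.unusedSimpArgs false
set_option backward.isDefEq.respectTransparency false
set_option backward.defeqAttrib.useBackward true

open CategoryTheory Limits MonoidalCategory TensorProduct Pretriangulated Triangulated ZeroObject

namespace Pool.Agent.Helper812_MT

open Pool.Agent.Y116.MT Pool.Agent.V1178.MT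

universe v u w

section

variable {C : Type u} [Category.{v} C] [Preadditive C] [HasZeroObject C] [HasShift C ℤ]
  [∀ n : ℤ, (shiftFunctor C n).Additive] [Pretriangulated C] [MonoidalCategory C]
  [SymmetricCategory C] [TensorTriangulated C] [IsTriangulated C] [MonoidalPreadditive C]
  [RightRigidCategory C]
  {E : Type w} [Field E] {R : Realisation C E} {t : TStructure C}

lemma key1 (he : TExact t R) (b : ℤ) (W : C) :
    IsIso (R.H.map (((t.truncLTι (b + 1)).app W)⟦b⟧')) := by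
  have h3 : t.IsGE ((t.truncGE (b + 1)).obj W) (b + 1) := inferInstance
  have hT := t.triangleLTGE_distinguished (b + 1) W
  have h1 := hmono1 R.H hT b (he.isGE h3 _ (by omega))
  have h2 := hepi1 R.H hT b (he.isGE h3 _ (by omega))
  exact isIso_of_mono_of_epi _

lemma key2 (he : TExact t R) (b : ℤ) (W : C) :
    IsIso (R.H.map (((t.truncGEπ b).app ((t.truncLT (b + 1)).obj W))⟦b⟧')) := by
  have h3 : t.IsLE ((t.truncLT b).obj ((t.truncLT (b + 1)).obj W)) (b - 1) := inferInstance
  have hT := t.triangleLTGE_distinguished b ((t.truncLT (b + 1)).obj W)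
  have h1 := hmono2 R.H hT b (he.isLE h3 _ (by omega))
  have h2 := hepi2 R.H hT b (he.isLE h3 _ (by omega))
  exact isIso_of_mono_of_epi _

/-- The realisation in degree `b` of the cohomology object of degree `b`. -/
noncomputable def cohIso (he : TExact t R) (b : ℤ) :
    t.truncGELT b (b + 1) ⋙ shiftFunctor C b ⋙ R.H ≅ shiftFunctor C b ⋙ R.H := by
  have h1 : IsIso (Functor.whiskerRight (t.truncLTι (b + 1)) (shiftFunctor C b ⋙ R.H)) := by
    rw [NatTrans.isIso_iff_isIso_app]
    intro W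
    exact key1 he b W
  have h2 : IsIso (Functor.whiskerRight (Functor.whiskerLeft (t.truncLT (b + 1)) (t.truncGEπ b))
      (shiftFunctor C b ⋙ R.H)) := by
    rw [NatTrans.isIso_iff_isIso_app]
    intro W
    exact key2 he b W
  exact (asIso (Functor.whiskerRight (Functor.whiskerLeft (t.truncLT (b + 1)) (t.truncGEπ b))
      (shiftFunctor C b ⋙ R.H))).symm ≪≫
    (asIso (Functor.whiskerRight (t.truncLTι (b + 1)) (shiftFunctor C b ⋙ R.H)))

lemma coh_exact (he : TExact t R) {X Y Z : C} {f : X ⟶ Y} {g : Y ⟶ Z} {h : Z ⟶ X⟦(1 : ℤ)⟧}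
    (hT : Triangle.mk f g h ∈ distTriang C) (b : ℤ) (y : R.H.obj ((coh t b Y)⟦b⟧))
    (hy : R.H.map (((t.truncGELT b (b + 1)).map g)⟦b⟧') y = 0) :
    ∃ x, R.H.map (((t.truncGELT b (b + 1)).map f)⟦b⟧') x = y := by
  let e := cohIso he b
  let F : C ⥤ ModuleCat.{w} E := shiftFunctor C b ⋙ R.H
  have nat : ∀ {V W : C} (k : V ⟶ W) (z : (t.truncGELT b (b + 1) ⋙ F).obj V),
      e.hom.app W ((t.truncGELT b (b + 1) ⋙ F).map k z) = F.map k (e.hom.app V z) := by
    intro V W k z
    have := e.hom.naturality k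
    exact congrArg (fun φ => φ z) this
  have inj : ∀ (W : C), Function.Injective (e.hom.app W) := fun W =>
    (ModuleCat.mono_iff_injective _).1 inferInstance
  have surj : ∀ (W : C), Function.Surjective (e.hom.app W) := fun W =>
    (ModuleCat.epi_iff_surjective _).1 inferInstance
  have h1 : F.map g (e.hom.app Y y) = 0 := by
    rw [← nat]
    have h2 : (t.truncGELT b (b + 1) ⋙ F).map g y = 0 := hy
    rw [h2, map_zero]
  have h2 : e.hom.app Y y ∈ LinearMap.range (R.H.map (f⟦b⟧')).hom := by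
    rw [hexact R.H hT b]
    exact h1
  obtain ⟨x2, hx2⟩ := h2
  obtain ⟨x, rfl⟩ := surj X x2
  refine ⟨x, inj Y ?_⟩
  rw [← hx2]
  exact nat f x

variable {E' : Type w} [Field E'] {R' : Realisation C E'}

variable (ht : TensorCompat t) (hc : Conservative R) (he : TExact t R) (hu : Hrt t (𝟙_ C))
  (hid : ∀ e : 𝟙_ C ⟶ 𝟙_ C, e ≫ e = e → e = 0 ∨ e = 𝟙 _)

lemma lift_zero {X Y Z : C} {f : X ⟶ Y} {g : Y ⟶ Z} {h : Z ⟶ X⟦(1 : ℤ)⟧}
    (hT : Triangle.mk f g h ∈ distTriang C) {b : ℤ} {W : C} (hW : t.IsLE W b) (hZ : t.IsGE Z b)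
    (k : W ⟶ X) (hk : k ≫ f = 0) : k = 0 := by
  obtain ⟨l, hl⟩ := ce1 hT (k⟦(1 : ℤ)⟧') (by rw [← Functor.map_comp, hk, Functor.map_zero])
  have h1 : t.IsLE (W⟦(1 : ℤ)⟧) (b - 1) := t.isLE_shift W b 1 (b - 1)
  have h2 : l = 0 := t.zero_of_isLE_of_isGE l (b - 1) b (by omega) h1 hZ
  rw [h2, zero_comp] at hl
  exact (shiftFunctor C (1 : ℤ)).map_injective (by rw [hl, Functor.map_zero])

include ht hc he hu hid

/-- The cohomology objects of an extension of objects with good cohomology objects are good. -/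
theorem good_ext {X Y Z : C} {f : X ⟶ Y} {g : Y ⟶ Z} {h : Z ⟶ X⟦(1 : ℤ)⟧}
    (hT : Triangle.mk f g h ∈ distTriang C) (hX : ∀ b, Good R R' b (coh t b X))
    (hZ : ∀ b, Good R R' b (coh t b Z)) (b : ℤ) : Good R R' b (coh t b Y) := by
  set φ := (t.truncGELT b (b + 1)).map f with hφ
  set ψ := (t.truncGELT b (b + 1)).map g with hψ
  have hφψ : φ ≫ ψ = 0 := by
    rw [hφ, hψ, ← Functor.map_comp, comp12 hT, Functor.map_zero]
  obtain ⟨K, I, Q, i, p, d, j, q, d', h1, h2, h3, ⟨hK1, hK2⟩, ⟨hI1, hI2⟩, ⟨hQ1, hQ2⟩⟩ :=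
    ker_im ψ (coh_isLE t b Y) (coh_isGE t b Y) (coh_isLE t b Z) (coh_isGE t b Z)
  have gI : Good R R' b I := (Good.sub_quot ht he hu hid h2 hI1 hI2 hQ1 hQ2 (hZ b)).1
  have h4 : φ ≫ p = 0 := by
    refine lift_zero h2 (coh_isLE t b X) hQ2 _ ?_
    rw [Category.assoc, h3, hφψ]
  obtain ⟨φ', hφ'⟩ := ce2 h1 φ h4
  obtain ⟨K', I', Q', i', p', d'', j', q', d''', h5, h6, h7, ⟨hK1', hK2'⟩, ⟨hI1', hI2'⟩,
    ⟨hQ1', hQ2'⟩⟩ := ker_im φ' (coh_isLE t b X) (coh_isGE t b X) hK1 hK2
  have gI' : Good R R' b I' := (Good.sub_quot ht he hu hid h5 hK1' hK2' hI1' hI2' (hX b)).2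
  have hs : Function.Surjective (R.H.map (φ'⟦b⟧')) := by
    intro k
    have h8 : R.H.map (ψ⟦b⟧') (R.H.map (i⟦b⟧') k) = 0 := by
      have h9 : R.H.map (i⟦b⟧') ≫ R.H.map (ψ⟦b⟧') = 0 := by
        rw [← Functor.map_comp, ← Functor.map_comp, ← h3, ← Category.assoc, comp12 h1, zero_comp,
          Functor.map_zero, Functor.map_zero]
      exact congrArg (fun φ => φ k) h9
    obtain ⟨x, hx⟩ := coh_exact he hT b _ h8
    refine ⟨x, ?_⟩
    have h10 := (ModuleCat.mono_iff_injective _).1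
      (hmono1 R.H h1 b (he.isGE hI2 (b - 1) (by omega)))
    apply h10
    rw [← hx]
    have h11 : R.H.map (φ⟦b⟧') = R.H.map (φ'⟦b⟧') ≫ R.H.map (i⟦b⟧') := by
      rw [← Functor.map_comp, ← Functor.map_comp, ← hφ']
    change _ = R.H.map (φ⟦b⟧') x
    rw [h11]
    rfl
  have hQ0 : IsZero Q' := by
    apply hc
    intro n
    by_cases hn : n = b
    · subst hn
      have h8 := hepi2 R.H h6 n (he.isLE hI1' (n + 1) (by omega))
      have h9 : Epi (R.H.map (φ'⟦n⟧')) := (ModuleCat.epi_iff_surjective _).2 hs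
      have h10 : R.H.map (φ'⟦n⟧') ≫ R.H.map (q'⟦n⟧') = 0 := by
        rw [← Functor.map_comp, ← Functor.map_comp, ← h7, Category.assoc, comp12 h6, comp_zero,
          Functor.map_zero, Functor.map_zero]
      have h11 : R.H.map (q'⟦n⟧') = 0 := by
        rw [← cancel_epi (R.H.map (φ'⟦n⟧')), h10, comp_zero]
      rw [IsZero.iff_id_eq_zero, ← cancel_epi (R.H.map (q'⟦n⟧')), h11, zero_comp, zero_comp]
    · exact TExact.deg' he hQ1' hQ2' n hn
  have hj := isIso1_of_isZero3 h6 hQ0
  have gK : Good R R' b K := gI'.iso (asIso j')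
  exact Good.ext he h1 hK1 hI2 gK gI

/-- The objects whose cohomology objects are good. -/
def GoodObj (t : TStructure C) (R : Realisation C E) (R' : Realisation C E') : ObjectProperty C :=
  fun X => ∀ b, Good R R' b (coh t b X)

omit ht hc he hu hid in
lemma good_zero {X : C} (hX : IsZero X) (b : ℤ) : Good R R' b X :=
  ⟨fun n _ => bn_of_isZero hX n, by rw [bn_of_isZero hX, bn_of_isZero hX]⟩

theorem goodObj_isTriangulated : (GoodObj t R R').IsTriangulated := by
  have h1 : (GoodObj t R R').ContainsZero := ⟨0, isZero_zero C, fun b => good_zero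
    ((t.truncGELT b (b + 1)).map_isZero (isZero_zero C)) b⟩
  have h2 : (GoodObj t R R').IsStableUnderShift ℤ := ⟨fun m => ⟨fun X hX b => by
    obtain ⟨e⟩ := coh_shift t b m X
    exact ((hX (b + m)).shift m b (by ring)).iso e.symm⟩⟩
  have h3 : (GoodObj t R R').IsTriangulatedClosed₂ := ⟨fun T hT h1 h3 =>
    ObjectProperty.le_isoClosure _ _ (good_ext ht hc he hu hid hT h1 h3)⟩
  exact {}

theorem goodObj_retract : (GoodObj t R R').IsStableUnderRetracts where
  of_retract {X Y} r hY b :=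
    Good.retract ht he hu hid ((t.truncGELT b (b + 1)).map r.i) ((t.truncGELT b (b + 1)).map r.r)
      (by rw [← Functor.map_comp, r.retract, CategoryTheory.Functor.map_id]) (coh_isLE t b Y)
      (coh_isGE t b Y) (hY b)

omit ht hc he hu hid in
/-- If all objects have good cohomology objects, the second realisation is t-exact. -/
theorem exact_of_good (h : ∀ X : C, GoodObj t R R' X) (hb : ∀ X : C, ∃ N : ℕ, t.IsLE X N ∧
    t.IsGE X (-N)) : TExact t R' := by
  constructor
  · intro X hX i hi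
    obtain ⟨N, -, hN⟩ := hb X
    have h0 : t.IsLE X 0 := ⟨hX⟩
    have h1 := bn_le_sum_coh (R := R') hN h0 i (Finset.Icc (-(N : ℤ)) 0) (fun j h1 h2 => by
      rw [Finset.mem_Icc]
      omega)
    rw [Finset.sum_eq_zero] at h1
    · exact bn_eq_zero_iff.1 (by omega)
    · intro j hj
      rw [Finset.mem_Icc] at hj
      exact (h X j).1 i (by omega)
  · intro X hX i hi
    obtain ⟨N, hN, -⟩ := hb X
    have h0 : t.IsGE X 0 := ⟨hX⟩
    have h1 := bn_le_sum_coh (R := R') h0 hN i (Finset.Icc 0 (N : ℤ)) (fun j h1 h2 => by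
      rw [Finset.mem_Icc]
      omega)
    rw [Finset.sum_eq_zero] at h1
    · exact bn_eq_zero_iff.1 (by omega)
    · intro j hj
      rw [Finset.mem_Icc] at hj
      exact (h X j).1 i (by omega)

end

end Pool.Agent.Helper812_MT
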