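import Pool.Agent.Helper812_MT.Rigid

/-!
# Domination of the total Betti numbers for all objects
-/

set_option autoImplicit false
set_option linter.unusedSectionVars false
set_option linter.unusedSimpArgs false
set_option backward.isDefEq.respectTransparency false
set_option backward.defeqAttrib.useBackward true

open CategoryTheory Limits MonoidalCategory TensorProduct Pretriangulated Triangulated

namespace Pool.Agent.Helper812_MT

open Pool.Agent.Y116.MT Pool.Agent.V1178.MT

universe v u w

section

variable {C : Type u} [Category.{v} C] [Preadditive C] [HasZeroObject C] [HasShift C ℤ]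
  [∀ n : ℤ, (shiftFunctor C n).Additive] [Pretriangulated C] [MonoidalCategory C]
  [SymmetricCategory C] [TensorTriangulated C] [MonoidalPreadditive C] [RightRigidCategory C]
  [IsTriangulated C] {E E' : Type w} [Field E] [Field E'] {R : Realisation C E}
  {R' : Realisation C E'} {t : TStructure C} (ht : TensorCompat t) (he : TExact t R)
  (hu : Hrt t (𝟙_ C)) (hid : ∀ e : 𝟙_ C ⟶ 𝟙_ C, e ≫ e = e → e = 0 ∨ e = 𝟙 _)

lemma sum_le_tot (X : C) (s : Finset ℤ) : ∑ i ∈ s, bn R X i ≤ tot R X := by
  rw [tot_eq X ((bn_support_finite (R := R) X).toFinset ∪ s)]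
  · exact Finset.sum_le_sum_of_subset Finset.subset_union_right
  · intro i hi
    by_contra h
    exact hi (Finset.mem_union_left _ ((bn_support_finite (R := R) X).mem_toFinset.2 h))

include ht he hu hid

theorem tot_dom (hc : Conservative R) (X : C) : tot R' X ≤ tot R X := by
  obtain ⟨N, h1, h2⟩ := bounded_of hc he X
  set B := Finset.Icc (-(N : ℤ)) N
  set S := (bn_support_finite (R := R') X).toFinset with hS
  have h3 : tot R' X = ∑ n ∈ S, bn R' X n := tot_eq X S fun i hi => by
    by_contra h
    exact hi ((bn_support_finite (R := R') X).mem_toFinset.2 h)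
  calc tot R' X = ∑ n ∈ S, bn R' X n := h3
    _ ≤ ∑ n ∈ S, ∑ b ∈ B, bn R' (coh t b X) n := Finset.sum_le_sum fun n _ =>
        bn_le_sum_coh h2 h1 n B fun i hi1 hi2 => Finset.mem_Icc.2 ⟨hi1, hi2⟩
    _ = ∑ b ∈ B, ∑ n ∈ S, bn R' (coh t b X) n := Finset.sum_comm
    _ ≤ ∑ b ∈ B, tot R' (coh t b X) := Finset.sum_le_sum fun b _ => sum_le_tot _ _
    _ ≤ ∑ b ∈ B, bn R (coh t b X) b := Finset.sum_le_sum fun b _ =>
        coh_dom ht he hu hid (coh_isLE t b X) (coh_isGE t b X)
    _ = ∑ b ∈ B, bn R X b := Finset.sum_congr rfl fun b _ => bn_coh he X b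
    _ ≤ tot R X := sum_le_tot _ _

end

end Pool.Agent.Helper812_MT
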