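import Pool.Agent.Helper812_MT.Dom

/-!
# Betti numbers of the truncations
-/

set_option autoImplicit false
set_option linter.unusedSectionVars false
set_option linter.unusedSimpArgs false
set_option backward.isDefEq.respectTransparency false
set_option backward.defeqAttrib.useBackward true

open CategoryTheory Limits MonoidalCategory TensorProduct Pretriangulated Triangulated

namespace Pool.Agent.Helper812_MT

open Pool.Agent.Y116.MT Pool.Agent.V1178.MT

universe v u w

section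

variable {C : Type u} [Category.{v} C] [Preadditive C] [HasZeroObject C] [HasShift C ℤ]
  [∀ n : ℤ, (shiftFunctor C n).Additive] [Pretriangulated C]
  {E : Type w} [Field E] (H : C ⥤ ModuleCat.{w} E) [H.IsHomological]
  {X Y Z : C} {f : X ⟶ Y} {g : Y ⟶ Z} {h : Z ⟶ X⟦(1 : ℤ)⟧}
  (hT : Triangle.mk f g h ∈ distTriang C)

include hT

lemma hexact (n : ℤ) : LinearMap.range (H.map (f⟦n⟧')).hom = LinearMap.ker (H.map (g⟦n⟧')).hom := by
  let _ := Functor.ShiftSequence.tautological H ℤ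
  exact (H.homologySequence_exact₂ _ hT n).moduleCat_range_eq_ker

lemma finrank_tri_le [∀ W : C, Module.Finite E (H.obj W)] (n : ℤ) :
    Module.finrank E (H.obj (Y⟦n⟧)) ≤
      Module.finrank E (H.obj (X⟦n⟧)) + Module.finrank E (H.obj (Z⟦n⟧)) := by
  have h1 := LinearMap.finrank_range_add_finrank_ker (H.map (g⟦n⟧')).hom
  rw [← hexact H hT n] at h1
  have h2 := LinearMap.finrank_range_le (H.map (f⟦n⟧')).hom
  have h3 := Submodule.finrank_le (LinearMap.range (H.map (g⟦n⟧')).hom)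
  omega

lemma finrank_tri_eq [∀ W : C, Module.Finite E (H.obj W)] (n : ℤ)
    (hZ : IsZero (H.obj (Z⟦n - 1⟧))) (hX : IsZero (H.obj (X⟦n + 1⟧))) :
    Module.finrank E (H.obj (Y⟦n⟧)) =
      Module.finrank E (H.obj (X⟦n⟧)) + Module.finrank E (H.obj (Z⟦n⟧)) := by
  have h1 := LinearMap.finrank_range_add_finrank_ker (H.map (g⟦n⟧')).hom
  rw [← hexact H hT n] at h1
  have h4 := (ModuleCat.mono_iff_injective _).1 (hmono1 H hT n hZ)
  have h5 := (ModuleCat.epi_iff_surjective _).1 (hepi2 H hT n hX)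
  have h2 := LinearMap.finrank_range_of_inj (f := (H.map (f⟦n⟧')).hom) h4
  have h3 : LinearMap.range (H.map (g⟦n⟧')).hom = ⊤ := LinearMap.range_eq_top.2 h5
  rw [h3, finrank_top] at h1
  omega

end

section

variable {C : Type u} [Category.{v} C] [Preadditive C] [HasZeroObject C] [HasShift C ℤ]
  [∀ n : ℤ, (shiftFunctor C n).Additive] [Pretriangulated C] [MonoidalCategory C]
  [SymmetricCategory C] [TensorTriangulated C] {E : Type w} [Field E] {R : Realisation C E}
  {X Y Z : C} {f : X ⟶ Y} {g : Y ⟶ Z} {h : Z ⟶ X⟦(1 : ℤ)⟧}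

lemma bn_tri_le (hT : Triangle.mk f g h ∈ distTriang C) (n : ℤ) :
    bn R Y n ≤ bn R X n + bn R Z n := finrank_tri_le R.H hT n

lemma bn_tri_eq (hT : Triangle.mk f g h ∈ distTriang C) (n : ℤ) (hZ : bn R Z (n - 1) = 0)
    (hX : bn R X (n + 1) = 0) : bn R Y n = bn R X n + bn R Z n :=
  finrank_tri_eq R.H hT n (bn_eq_zero_iff.1 hZ) (bn_eq_zero_iff.1 hX)

end

section Trunc

variable {C : Type u} [Category.{v} C] [Preadditive C] [HasZeroObject C] [HasShift C ℤ]
  [∀ n : ℤ, (shiftFunctor C n).Additive] [Pretriangulated C] [IsTriangulated C]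
  (t : TStructure C)

/-- The cohomology object of degree `b`, placed in degree `b`. -/
noncomputable abbrev coh (b : ℤ) (X : C) : C := (t.truncGELT b (b + 1)).obj X

lemma coh_isGE (b : ℤ) (X : C) : t.IsGE (coh t b X) b := inferInstance

lemma coh_isLE (b : ℤ) (X : C) : t.IsLE (coh t b X) b :=
  t.isLE_of_le _ (b + 1 - 1) b (by omega)

lemma coh_isZero_of_lt {b n : ℤ} {X : C} (hX : t.IsLE X n) (hb : n < b) : IsZero (coh t b X) := by
  have h1 : t.IsLE ((t.truncLT (b + 1)).obj X) n := inferInstance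
  have h2 : t.IsLE ((t.truncLT (b + 1)).obj X) (b - 1) := t.isLE_of_le _ n (b - 1) (by omega)
  exact t.isZero_truncGE_obj_of_isLE (b - 1) b (by omega) _

lemma coh_isZero_of_gt {b n : ℤ} {X : C} (hX : t.IsGE X n) (hb : b < n) : IsZero (coh t b X) := by
  have h1 : t.IsGE X (b + 1) := t.isGE_of_ge _ (b + 1) n (by omega)
  exact (t.truncGE b).map_isZero (t.isZero_truncLT_obj_of_isGE (b + 1) X)

/-- The triangle of two consecutive truncations. -/
lemma coh_tri (b : ℤ) (X : C) : ∃ (f : (t.truncLT b).obj X ⟶ (t.truncLT (b + 1)).obj X)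
    (g : (t.truncLT (b + 1)).obj X ⟶ coh t b X) (h : coh t b X ⟶ ((t.truncLT b).obj X)⟦(1 : ℤ)⟧),
    Triangle.mk f g h ∈ distTriang C :=
  ⟨_, _, _, t.triangleLTLTGELT_distinguished b (b + 1) (by omega) X⟩

lemma trunc_tri (b : ℤ) (X : C) : ∃ (f : (t.truncLT b).obj X ⟶ X)
    (g : X ⟶ (t.truncGE b).obj X) (h : (t.truncGE b).obj X ⟶ ((t.truncLT b).obj X)⟦(1 : ℤ)⟧),
    Triangle.mk f g h ∈ distTriang C :=
  ⟨_, _, _, t.triangleLTGE_distinguished b X⟩

/-- Uniqueness of the truncations. -/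
lemma trunc_unique {b : ℤ} {T : Triangle C} (hT : T ∈ distTriang C) (h1 : t.IsLE T.obj₁ (b - 1))
    (h3 : t.IsGE T.obj₃ b) : Nonempty ((t.truncLT b).obj T.obj₂ ≅ T.obj₁) ∧
      Nonempty ((t.truncGE b).obj T.obj₂ ≅ T.obj₃) := by
  obtain ⟨e, _⟩ := t.triangle_iso_exists (t.triangleLTGE_distinguished b T.obj₂) hT
    (Iso.refl _) (b - 1) b (by dsimp; infer_instance) (by dsimp; infer_instance) h1 h3 (by omega)
  exact ⟨⟨Triangle.π₁.mapIso e⟩, ⟨Triangle.π₃.mapIso e⟩⟩

/-- The cohomology objects of a shift. -/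
lemma coh_shift (b m : ℤ) (X : C) : Nonempty (coh t b (X⟦m⟧) ≅ (coh t (b + m) X)⟦m⟧) := by
  have h1 := trunc_unique t (b := b + 1)
    (Triangle.shift_distinguished _ (t.triangleLTGE_distinguished (b + 1 + m) X) m)
    (by
      dsimp
      exact t.isLE_shift _ (b + 1 + m - 1) m (b + 1 - 1) (by omega))
    (by
      dsimp
      exact t.isGE_shift _ (b + 1 + m) m (b + 1) (by omega))
  obtain ⟨⟨e1⟩, -⟩ := h1
  have h2 := trunc_unique t (b := b)
    (Triangle.shift_distinguished _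
      (t.triangleLTGE_distinguished (b + m) ((t.truncLT (b + 1 + m)).obj X)) m)
    (by
      dsimp
      exact t.isLE_shift _ (b + m - 1) m (b - 1) (by omega))
    (by
      dsimp
      exact t.isGE_shift _ (b + m) m b (by omega))
  obtain ⟨-, ⟨e2⟩⟩ := h2
  refine ⟨(t.truncGE b).mapIso e1 ≪≫ e2 ≪≫ eqToIso ?_⟩
  dsimp [coh]
  rw [show b + 1 + m = b + m + 1 by ring]

end Trunc

end Pool.Agent.Helper812_MT
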