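import Pool.Agent.Y116.MT.HomNum

/-!
# The antisymmetrizer of a twisted object
-/

set_option autoImplicit false
set_option linter.unusedSectionVars false
set_option linter.unusedSimpArgs false
set_option backward.isDefEq.respectTransparency false
set_option backward.defeqAttrib.useBackward true

open CategoryTheory Limits MonoidalCategory

namespace Pool.Agent.Helper812_MT

open Pool.Agent.Y116.MT

universe v u w

section

variable {C : Type u} [Category.{v} C] [MonoidalCategory C] [SymmetricCategory C]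

/-- The symmetry of a tensor product, compared with the tensor product of the symmetries. -/
lemma tensorMu_braid (X₁ X₂ Y₁ Y₂ : C) :
    tensorμ X₁ X₂ Y₁ Y₂ ≫ ((β_ X₁ Y₁).hom ⊗ₘ (β_ X₂ Y₂).hom) =
      (β_ (X₁ ⊗ X₂) (Y₁ ⊗ Y₂)).hom ≫ tensorμ Y₁ Y₂ X₁ X₂ := by
  have h1 : Y₁ ◁ (β_ X₁ Y₂).hom ▷ X₂ ≫ Y₁ ◁ (β_ Y₂ X₁).hom ▷ X₂ = 𝟙 _ := by
    rw [← MonoidalCategory.whiskerLeft_comp, ← comp_whiskerRight, SymmetricCategory.symmetry]
    simp
  simp [tensorμ, SymmetricCategory.braiding_swap_eq_inv_braiding Y₁ X₂,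
    MonoidalCategory.tensorHom_def, reassoc_of% h1]

instance prodBraided {D : Type*} [Category* D] [MonoidalCategory D] [BraidedCategory D] :
    BraidedCategory (C × D) where
  braiding X Y := (β_ X.1 Y.1).prod (β_ X.2 Y.2)

instance prodSymmetric {D : Type*} [Category* D] [MonoidalCategory D] [SymmetricCategory D] :
    SymmetricCategory (C × D) where
  symmetry X Y := Prod.ext (SymmetricCategory.symmetry X.1 Y.1)
    (SymmetricCategory.symmetry X.2 Y.2)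

instance tensorLaxBraided : (tensor C).LaxBraided where
  braided X Y := tensorMu_braid X.1 X.2 Y.1 Y.2

lemma exch_tensor (A B Z S : C) :
    (exch (A ⊗ B) (Z ⊗ S) (Z ⊗ S)).hom ≫ tensorμ A B Z S ▷ (Z ⊗ S) ≫ tensorμ (A ⊗ Z) (B ⊗ S) Z S =
      tensorμ A B Z S ▷ (Z ⊗ S) ≫ tensorμ (A ⊗ Z) (B ⊗ S) Z S ≫
        ((exch A Z Z).hom ⊗ₘ (exch B S S).hom) :=
  exch_lax (tensor C) ((Z, S) : C × C) ((A, B) : C × C) ((Z, S) : C × C)

/-- The exchange is the identity if the symmetry is. -/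
lemma exch_id {B S : C} (hS : (β_ S S).hom = 𝟙 _) : (exch B S S).hom = 𝟙 _ := by
  simp [exch, hS]

/-- The comparison of the powers of a tensor product with the tensor product of the powers. -/
def kk (X Y Z S : C) : ∀ n : ℕ, pw (X ⊗ Y) (Z ⊗ S) n ⟶ pw X Z n ⊗ pw Y S n
  | 0 => 𝟙 _
  | n + 1 => (kk X Y Z S n ▷ (Z ⊗ S)) ≫ tensorμ (pw X Z n) (pw Y S n) Z S

instance isIso_tensorMu (X₁ X₂ Y₁ Y₂ : C) : IsIso (tensorμ X₁ X₂ Y₁ Y₂) :=
  ⟨tensorδ X₁ X₂ Y₁ Y₂, tensorμ_tensorδ _ _ _ _, tensorδ_tensorμ _ _ _ _⟩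

instance kk_iso (X Y Z S : C) (n : ℕ) : IsIso (kk X Y Z S n) := by
  induction n with
  | zero => simp only [kk]; infer_instance
  | succ n ih => simp only [kk]; infer_instance

lemma exch_natural_first' {W W' : C} (w : W ⟶ W') (Z P : C) :
    (exch W Z P).hom ≫ (w ▷ P) ▷ Z = (w ▷ Z) ▷ P ≫ (exch W' Z P).hom :=
  (exch_natural_first w Z P).symm

lemma mv_kk {S : C} (hS : (β_ S S).hom = 𝟙 _) (X Y Z : C) (n : ℕ) : ∀ i : Fin (n + 1),
    mv (X ⊗ Y) (Z ⊗ S) n i ≫ kk X Y Z S (n + 1) =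
      kk X Y Z S (n + 1) ≫ (mv X Z n i ▷ pw Y S (n + 1)) := by
  induction n with
  | zero =>
    intro i
    simp [mv]
  | succ n ih =>
    intro i
    refine Fin.lastCases ?_ (fun j => ?_) i
    · simp
    · rw [mv_castSucc, mv_castSucc]
      have h1 : kk X Y Z S (n + 1 + 1) = (kk X Y Z S n ▷ (Z ⊗ S) ▷ (Z ⊗ S)) ≫
          (tensorμ (pw X Z n) (pw Y S n) Z S ▷ (Z ⊗ S)) ≫
            tensorμ (pw X Z n ⊗ Z) (pw Y S n ⊗ S) Z S := by
        simp [kk]
      have h2 : (exch (pw (X ⊗ Y) (Z ⊗ S) n) (Z ⊗ S) (Z ⊗ S)).hom ≫ kk X Y Z S (n + 1 + 1) =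
          kk X Y Z S (n + 1 + 1) ≫ ((exch (pw X Z n) Z Z).hom ▷ pw Y S (n + 1 + 1)) := by
        rw [h1, ← Category.assoc, ← exch_natural_first, Category.assoc, exch_tensor, exch_id hS]
        simp only [Category.assoc, tensorHom_id]
      have h3 : (mv (X ⊗ Y) (Z ⊗ S) n j ▷ (Z ⊗ S)) ≫ kk X Y Z S (n + 1 + 1) =
          kk X Y Z S (n + 1 + 1) ≫ ((mv X Z n j ▷ Z) ▷ pw Y S (n + 1 + 1)) := by
        have h4 : kk X Y Z S (n + 1 + 1) = (kk X Y Z S (n + 1) ▷ (Z ⊗ S)) ≫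
            tensorμ (pw X Z (n + 1)) (pw Y S (n + 1)) Z S := rfl
        have h5 := tensorμ_natural_left (mv X Z n j) (𝟙 (pw Y S (n + 1))) Z S
        simp only [tensorHom_id, id_whiskerRight] at h5
        rw [h4, ← comp_whiskerRight_assoc, ih, comp_whiskerRight_assoc, h5, Category.assoc]
      rw [comp_whiskerRight, Category.assoc, h2, ← Category.assoc, h3, Category.assoc]

variable [Preadditive C] [MonoidalPreadditive C]

lemma alt_kk {S : C} (hS : (β_ S S).hom = 𝟙 _) (X Y Z : C) (n : ℕ) :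
    alt (X ⊗ Y) (Z ⊗ S) n ≫ kk X Y Z S n = kk X Y Z S n ≫ (alt X Z n ▷ pw Y S n) := by
  induction n with
  | zero => simp [alt, kk]
  | succ n ih =>
    have h0 : alt X Z (n + 1) ▷ pw Y S (n + 1) = ∑ i : Fin (n + 1), ((-1 : ℤ) ^ (n + i.val)) •
        ((mv X Z n i ▷ pw Y S (n + 1)) ≫ ((alt X Z n ▷ Z) ▷ pw Y S (n + 1))) := by
      have h1 := (tensorRight (pw Y S (n + 1))).map_sum (fun i : Fin (n + 1) =>
        ((-1 : ℤ) ^ (n + i.val)) • (mv X Z n i ≫ (alt X Z n ▷ Z))) Finset.univ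
      refine Eq.trans h1 (Finset.sum_congr rfl fun i _ => ?_)
      rw [Functor.map_zsmul, Functor.map_comp]
      rfl
    rw [h0]
    simp only [alt, Preadditive.sum_comp, Preadditive.comp_sum]
    refine Finset.sum_congr rfl (fun i _ => ?_)
    rw [Preadditive.zsmul_comp, Preadditive.comp_zsmul,
      ← Category.assoc (kk X Y Z S (n + 1)), ← mv_kk hS]
    have h3 : (alt (X ⊗ Y) (Z ⊗ S) n ▷ (Z ⊗ S)) ≫ kk X Y Z S (n + 1) =
          kk X Y Z S (n + 1) ≫ ((alt X Z n ▷ Z) ▷ pw Y S (n + 1)) := by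
        have h4 : kk X Y Z S (n + 1) = (kk X Y Z S n ▷ (Z ⊗ S)) ≫
            tensorμ (pw X Z n) (pw Y S n) Z S := rfl
        have h5 := tensorμ_natural_left (alt X Z n) (𝟙 (pw Y S n)) Z S
        simp only [tensorHom_id, id_whiskerRight] at h5
        rw [h4, ← comp_whiskerRight_assoc, ih, comp_whiskerRight_assoc, h5, Category.assoc]
    rw [Category.assoc, Category.assoc, h3]

/-- The twist by an object whose symmetry is the identity preserves the vanishing of the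
antisymmetrizer. -/
lemma alt_twist {S : C} (hS : (β_ S S).hom = 𝟙 _) {X Z : C} {n : ℕ} (h : alt X Z n = 0) (Y : C) :
    alt (X ⊗ Y) (Z ⊗ S) n = 0 := by
  have h1 : (0 : pw X Z n ⟶ pw X Z n) ▷ pw Y S n = 0 := (tensorRight (pw Y S n)).map_zero _ _
  rw [← cancel_mono (kk X Y Z S n), alt_kk hS, h, h1, comp_zero, zero_comp]

/-- The square of an object with symmetry `-1` has symmetry `1`. -/
lemma braid_square {T : C} (hT : (β_ T T).hom = -𝟙 _) : (β_ (T ⊗ T) (T ⊗ T)).hom = 𝟙 _ := by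
  have h1 := SymmetricCategory.tensorμ_braid_swap T T
  have h2 : ((-𝟙 (T ⊗ T)) ⊗ₘ (-𝟙 (T ⊗ T))) = 𝟙 _ := by
    rw [MonoidalCategory.tensorHom_def, wr_neg, wl_neg, Preadditive.neg_comp_neg]
    simp
  rw [hT, h2, Category.id_comp] at h1
  rw [← cancel_epi (tensorμ T T T T), h1, Category.comp_id]

/-- Tensoring with an invertible object is faithful. -/
lemma whisker_inv_faithful {U U' : C} (e : U ⊗ U' ≅ 𝟙_ C) {X Y : C} (f : X ⟶ Y)
    (h : f ▷ U = 0) : f = 0 := by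
  have h1 : f ▷ (U ⊗ U') = 0 := by
    have h2 : (0 : X ⊗ U ⟶ Y ⊗ U) ▷ U' = 0 := (tensorRight U').map_zero _ _
    rw [whiskerRight_tensor, h, h2, zero_comp, comp_zero]
  have h2 : f ▷ (𝟙_ C) = 0 := by
    have h3 : (X ◁ e.hom) ≫ f ▷ (𝟙_ C) = f ▷ (U ⊗ U') ≫ (Y ◁ e.hom) := whisker_exchange f e.hom
    rw [← cancel_epi (X ◁ e.hom), h3, h1, zero_comp, comp_zero]
  have h3 : f = (ρ_ X).inv ≫ f ▷ (𝟙_ C) ≫ (ρ_ Y).hom := by simp
  rw [h3, h2, zero_comp, comp_zero]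

/-- If `T ⊗ T'` is the unit and the symmetry of `T'` is `-1`, so is that of `T`. -/
lemma braid_inverse {T T' : C} (e : T ⊗ T' ≅ 𝟙_ C) (hT : (β_ T' T').hom = -𝟙 _) :
    (β_ T T).hom = -𝟙 _ := by
  have h1 := SymmetricCategory.tensorμ_braid_swap T T'
  have h2 : (β_ (T ⊗ T') (T ⊗ T')).hom = 𝟙 _ := by
    have h3 : (β_ (T ⊗ T') (T ⊗ T')).hom ≫ (e.hom ⊗ₘ e.hom) = (e.hom ⊗ₘ e.hom) ≫
        (β_ (𝟙_ C) (𝟙_ C)).hom := (BraidedCategory.braiding_naturality e.hom e.hom).symm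
    have h4 : (β_ (𝟙_ C) (𝟙_ C)).hom = 𝟙 _ := by
      have := braiding_leftUnitor (𝟙_ C)
      rw [← cancel_mono (λ_ (𝟙_ C)).hom, this, unitors_equal, Category.id_comp]
    rw [← cancel_mono (e.hom ⊗ₘ e.hom), h3, h4, Category.comp_id, Category.id_comp]
  rw [h2, Category.comp_id] at h1
  have h3 : ((β_ T T).hom ⊗ₘ (β_ T' T').hom) = 𝟙 _ := by
    rw [← cancel_mono (tensorμ T T T' T'), ← h1, Category.id_comp]
  rw [hT, MonoidalCategory.tensorHom_def, wl_neg, MonoidalCategory.whiskerLeft_id,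
    Preadditive.comp_neg, Category.comp_id] at h3
  have h4 : ((β_ T T).hom + 𝟙 _) ▷ (T' ⊗ T') = 0 := by
    rw [MonoidalPreadditive.add_whiskerRight, id_whiskerRight, ← h3]
    simp
  have h5 : (((β_ T T).hom + 𝟙 _) ▷ T') ▷ T' = 0 := by
    rw [whiskerRight_tensor] at h4
    rw [← cancel_mono (α_ _ _ _).hom, ← cancel_epi (α_ _ _ _).inv, h4, zero_comp, comp_zero]
  have e' : T' ⊗ T ≅ 𝟙_ C := β_ T' T ≪≫ e
  exact eq_neg_of_add_eq_zero_left (whisker_inv_faithful e' _ (whisker_inv_faithful e' _ h5))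

end

end Pool.Agent.Helper812_MT
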